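import Pool.Agent.Q284.GR.In
import Pool.Agent.TH553.ST.PW

/-! The algebras of the class functions of compact groups. -/

set_option autoImplicit false
set_option linter.unusedSectionVars false

namespace Pool.Agent.Q284.GR

open Filter Topology ComplexConjugate MeasureTheory Pool.Agent.Q284.JM Pool.Agent.TH553.RS
  Pool.Agent.TH553.ST

section

variable {P : Type} {H : Type} [Group H] [TopologicalSpace H] [IsTopologicalGroup H]
  [CompactSpace H] [MeasurableSpace H] [BorelSpace H] {μ : Measure H}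
  [IsProbabilityMeasure μ] [μ.IsHaarMeasure]

/-- the characters -/
def CG (y : P → H) : Set (P → ℂ) := {c | ∃ (n : ℕ) (π : H →* Matrix.unitaryGroup (Fin n) ℂ),
  n ≠ 0 ∧ Continuous π ∧ Schur π ∧ c = fun p => chi π (y p)}

/-- the class functions -/
def AG (y : P → H) : Set (P → ℂ) := {f | ∃ F : H → ℂ, Continuous F ∧
  (∀ g h, F (h * g * h⁻¹) = F g) ∧ f = fun p => F (y p)}

/-- the law of `y` for the mean value `L` -/
def LW (L : (P → ℝ) → ℝ) (y : P → H) (μ : Measure H) : Prop :=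
  ∀ F : H → ℝ, Continuous F → (∀ g h, F (h * g * h⁻¹) = F g) → L (fun p => F (y p)) = ∫ g, F g ∂μ

theorem chi_trivial (g : H) : chi (1 : H →* Matrix.unitaryGroup (Fin 1) ℂ) g = 1 := by
  rw [chi_triv (fun _ => rfl)]
  norm_num

theorem schur_trivial : Schur (1 : H →* Matrix.unitaryGroup (Fin 1) ℂ) := by
  intro A _
  refine ⟨A 0 0, ?_⟩
  ext i j
  rw [Subsingleton.elim i 0, Subsingleton.elim j 0]
  simp

theorem one_CG (y : P → H) : (fun _ => (1 : ℂ)) ∈ CG y :=
  ⟨1, 1, one_ne_zero, continuous_const, schur_trivial, funext fun p => (chi_trivial (y p)).symm⟩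

theorem sub_CG (y : P → H) : CG y ⊆ AG y := by
  rintro _ ⟨n, π, -, hc, -, rfl⟩
  exact ⟨chi π, cont_chi hc, fun g h => chi_cls π g h, rfl⟩

theorem bz_AG {y : P → H} {f : P → ℂ} (hf : f ∈ AG y) : Bz f := by
  obtain ⟨F, hF, -, rfl⟩ := hf
  obtain ⟨C, hC⟩ := (isCompact_univ (X := H)).exists_bound_of_continuousOn hF.continuousOn
  exact ⟨C, fun p => hC _ (Set.mem_univ _)⟩

theorem sq_CG {y : P → H} {c : P → ℂ} (hc : c ∈ CG y) (k : ℕ) :
    (fun p => ((‖c p‖ ^ k : ℝ) : ℂ)) ∈ AG y := by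
  obtain ⟨n, π, -, hπ, -, rfl⟩ := hc
  refine ⟨fun g => ((‖chi π g‖ ^ k : ℝ) : ℂ), Complex.continuous_ofReal.comp
    ((cont_chi hπ).norm.pow k), fun g h => ?_, rfl⟩
  simp only
  rw [chi_cls]

theorem dns_AG [T2Space H] {y : P → H} {f : P → ℂ} (hf : f ∈ AG y) {ε : ℝ} (hε : 0 < ε) :
    ∃ (n : ℕ) (a : Fin n → ℂ) (c : Fin n → P → ℂ),
      (∀ k, c k ∈ CG y) ∧ ∀ p, ‖f p - ∑ k, a k * c k p‖ ≤ ε := by
  obtain ⟨F, hF, hcl, rfl⟩ := hf
  obtain ⟨F', ⟨J, hJ, m, ρ, a, h1, h2⟩, h3⟩ := class_dense hF hcl hε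
  classical
  let e : J ≃ Fin (Fintype.card J) := Fintype.equivFin J
  refine ⟨Fintype.card J, fun k => if m (e.symm k) = 0 then 0 else a (e.symm k),
    fun k => if m (e.symm k) = 0 then fun _ => 1 else fun p => chi (ρ (e.symm k)) (y p),
    fun k => ?_, fun p => ?_⟩
  · by_cases h : m (e.symm k) = 0
    · simp only [if_pos h]
      exact one_CG y
    · simp only [if_neg h]
      exact ⟨_, ρ (e.symm k), h, (h1 _).1, (h1 _).2, rfl⟩
  · have e1 : (∑ k : Fin (Fintype.card J), (if m (e.symm k) = 0 then 0 else a (e.symm k)) *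
        (if m (e.symm k) = 0 then fun _ => (1 : ℂ) else fun p => chi (ρ (e.symm k)) (y p)) p) =
        F' (y p) := by
      rw [h2]
      symm
      refine Fintype.sum_equiv e _ _ fun j => ?_
      rw [Equiv.symm_apply_apply]
      by_cases h : m j = 0
      · simp only [if_pos h, zero_mul]
        have h4 : chi (ρ j) (y p) = 0 := by
          have h5 := norm_chi (ρ j) (y p)
          have h6 : ((m j : ℕ) : ℝ) = 0 := by rw [h]; exact Nat.cast_zero
          exact norm_le_zero_iff.1 (h5.trans h6.le)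
        rw [h4, mul_zero]
      · simp only [if_neg h]
    rw [e1]
    exact h3 (y p)

variable {L : (P → ℝ) → ℝ} {y : P → H}

/-- complex class functions -/
theorem Ec_law (h : LW L y μ) {F : H → ℂ} (hF : Continuous F)
    (hcl : ∀ g h, F (h * g * h⁻¹) = F g) : Ec L (fun p => F (y p)) = ∫ g, F g ∂μ := by
  have h1 := h (fun g => (F g).re) (Complex.continuous_re.comp hF) fun g h => by rw [hcl]
  have h2 := h (fun g => (F g).im) (Complex.continuous_im.comp hF) fun g h => by rw [hcl]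
  have h5 := integral_re_add_im (𝕜 := ℂ) (intg (μ := μ) hF)
  unfold Ec
  rw [h1, h2, ← h5]
  apply Complex.ext
  · simp
  · simp

theorem nrm_CG (h : LW L y μ) {c : P → ℂ} (hc : c ∈ CG y) : L (fun p => ‖c p‖ ^ 2) = 1 := by
  obtain ⟨n, π, hn, hπ, hs, rfl⟩ := hc
  have h1 := h (fun g => ‖chi π g‖ ^ 2) ((cont_chi hπ).norm.pow 2) fun g h => by rw [chi_cls]
  rw [h1]
  exact int_sq hπ hs hn

/-- a character of constant absolute value -/
theorem dim_one {n : ℕ} {π : H →* Matrix.unitaryGroup (Fin n) ℂ} (hn : n ≠ 0)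
    (h : ‖chi π 1‖ ^ 2 = 1) : n = 1 := by
  rw [chi_one, Complex.norm_natCast] at h
  have h1 : n ^ 2 = 1 := by exact_mod_cast h
  have h2 : 0 < n := Nat.pos_of_ne_zero hn
  nlinarith

theorem ort_CG (h : LW L y μ) {c : P → ℂ} (hc : c ∈ CG y) (hne : c ≠ fun _ => 1) : Ec L c = 0 := by
  obtain ⟨n, π, hn, hπ, hs, rfl⟩ := hc
  rw [Ec_law h (cont_chi hπ) fun g h => chi_cls π g h]
  by_cases hnt : ∃ g, π g ≠ 1
  · exact int_chi hπ hs hnt
  · push Not at hnt
    exfalso
    have h1 := int_sq (μ := μ) hπ hs hn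
    have h2 : ∀ g, ‖chi π g‖ ^ 2 = ‖chi π 1‖ ^ 2 := fun g => by
      rw [chi_triv hnt, chi_triv hnt]
    simp only [h2] at h1
    have h3 : ‖chi π 1‖ ^ 2 = 1 := by simpa using h1
    have h4 := dim_one hn h3
    subst h4
    refine hne (funext fun p => ?_)
    rw [chi_triv hnt]
    norm_num

/-- the equality of `|χ|` with one -/
theorem abs_one {n : ℕ} {π : H →* Matrix.unitaryGroup (Fin n) ℂ} (hπ : Continuous π)
    (h1 : ∫ g, ‖chi π g‖ ^ 2 ∂μ = 1) (h2 : ∫ g, ‖chi π g‖ ^ 4 ∂μ = 1) (g : H) :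
    ‖chi π g‖ ^ 2 = 1 := by
  have hc : Continuous fun g => (‖chi π g‖ ^ 2 - 1) ^ 2 :=
    (((cont_chi hπ).norm.pow 2).sub continuous_const).pow 2
  have h3 : ∫ g, (‖chi π g‖ ^ 2 - 1) ^ 2 ∂μ = 0 := by
    have e : (fun g => (‖chi π g‖ ^ 2 - 1) ^ 2) =
        fun g => ‖chi π g‖ ^ 4 - (2 * ‖chi π g‖ ^ 2 - 1) := by
      funext g
      ring
    have c4 : Continuous fun g => ‖chi π g‖ ^ 4 := (cont_chi hπ).norm.pow 4
    have c2 : Continuous fun g => 2 * ‖chi π g‖ ^ 2 :=
      continuous_const.mul ((cont_chi hπ).norm.pow 2)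
    have c3 : Continuous fun g => 2 * ‖chi π g‖ ^ 2 - 1 := c2.sub continuous_const
    rw [e, integral_sub (intg c4) (intg c3), integral_sub (intg c2) (intg continuous_const),
      integral_const_mul, h1, h2]
    simp
    norm_num
  by_contra hcon
  have h4 := int_pos (μ := μ) hc (fun g => sq_nonneg _) (g₀ := g)
    (pow_ne_zero _ (sub_ne_zero.2 hcon))
  rw [h3] at h4
  exact lt_irrefl _ h4

/-- the homomorphism of a one dimensional representation -/
theorem chi_mul_one {π : H →* Matrix.unitaryGroup (Fin 1) ℂ} (g h : H) :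
    chi π (g * h) = chi π g * chi π h := by
  have h1 : ∀ g, chi π g = (π g : Matrix (Fin 1) (Fin 1) ℂ) 0 0 := fun g => by
    unfold chi
    simp [Matrix.trace]
  rw [h1, h1, h1, pi_mul, Matrix.mul_apply]
  simp

/-- there are no continuous homomorphisms to the circle -/
def Perf (H : Type) [Group H] [TopologicalSpace H] : Prop :=
  ∀ χ : H →* Circle, Continuous χ → χ = 1

theorem pf_CG (hp : Perf H) (h : LW L y μ) {c : P → ℂ} (hc : c ∈ CG y)
    (h4 : L (fun p => ‖c p‖ ^ 4) = 1) : c = fun _ => 1 := by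
  have h0 := nrm_CG h hc
  obtain ⟨n, π, hn, hπ, hs, rfl⟩ := hc
  have h1 := h (fun g => ‖chi π g‖ ^ 2) ((cont_chi hπ).norm.pow 2) fun g h => by rw [chi_cls]
  have h2 := h (fun g => ‖chi π g‖ ^ 4) ((cont_chi hπ).norm.pow 4) fun g h => by rw [chi_cls]
  have h3 := abs_one hπ (h1.symm.trans h0) (h2.symm.trans h4)
  have h5 := dim_one hn (h3 1)
  subst h5
  have h6 : ∀ g, ‖chi π g‖ = 1 := fun g =>
    (pow_eq_one_iff_of_nonneg (norm_nonneg _) two_ne_zero).1 (h3 g)
  let χ : H →* Circle :=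
    { toFun := fun g => ⟨chi π g, by
        exact mem_sphere_zero_iff_norm.2 (h6 g)⟩
      map_one' := by
        apply Subtype.ext
        change chi π 1 = 1
        rw [chi_one]
        norm_num
      map_mul' := fun g h => by
        apply Subtype.ext
        exact chi_mul_one g h }
  have hχ : Continuous χ := (cont_chi hπ).subtype_mk _
  have h7 := hp χ hχ
  funext p
  have h8 : chi π (y p) = (((1 : H →* Circle) (y p) : Circle) : ℂ) :=
    congrArg (fun ψ : H →* Circle => ((ψ (y p) : Circle) : ℂ)) h7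
  rw [h8]
  rfl

end

end Pool.Agent.Q284.GR
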