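import Pool.Agent.Q284.JM.Rig

/-! Independence of algebras of bounded functions for a mean value. -/

set_option autoImplicit false
set_option linter.unusedSectionVars false

namespace Pool.Agent.Q284.GR

open Finset Filter Topology ComplexConjugate Pool.Agent.Q284.JM Pool.Agent.TH553.RS

section

variable {P : Type}

/-- bounded complex functions -/
def Bz (f : P → ℂ) : Prop := ∃ B : ℝ, ∀ p, ‖f p‖ ≤ B

theorem Bz.re {f : P → ℂ} (h : Bz f) : Bd fun p => (f p).re := by
  obtain ⟨B, hB⟩ := h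
  exact ⟨B, fun p => (Complex.abs_re_le_norm _).trans (hB p)⟩

theorem Bz.im {f : P → ℂ} (h : Bz f) : Bd fun p => (f p).im := by
  obtain ⟨B, hB⟩ := h
  exact ⟨B, fun p => (Complex.abs_im_le_norm _).trans (hB p)⟩

theorem Bz.norm {f : P → ℂ} (h : Bz f) : Bd fun p => ‖f p‖ := by
  obtain ⟨B, hB⟩ := h
  exact ⟨B, fun p => by rw [abs_norm]; exact hB p⟩

theorem Bz.const (c : ℂ) : Bz fun _ : P => c := ⟨‖c‖, fun _ => le_rfl⟩

theorem Bz.add {f g : P → ℂ} (hf : Bz f) (hg : Bz g) : Bz fun p => f p + g p := by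
  obtain ⟨B, hB⟩ := hf
  obtain ⟨C, hC⟩ := hg
  exact ⟨B + C, fun p => (norm_add_le _ _).trans (add_le_add (hB p) (hC p))⟩

theorem Bz.mul {f g : P → ℂ} (hf : Bz f) (hg : Bz g) : Bz fun p => f p * g p := by
  obtain ⟨B, hB⟩ := hf
  obtain ⟨C, hC⟩ := hg
  refine ⟨|B| * |C|, fun p => ?_⟩
  rw [norm_mul]
  exact mul_le_mul ((hB p).trans (le_abs_self _)) ((hC p).trans (le_abs_self _)) (norm_nonneg _)
    (abs_nonneg _)

theorem Bz.conj {f : P → ℂ} (hf : Bz f) : Bz fun p => conj (f p) := by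
  obtain ⟨B, hB⟩ := hf
  exact ⟨B, fun p => by rw [RCLike.norm_conj]; exact hB p⟩

theorem Bz.sub {f g : P → ℂ} (hf : Bz f) (hg : Bz g) : Bz fun p => f p - g p := by
  have h := hf.add ((Bz.const (P := P) (-1)).mul hg)
  have e : (fun p => f p - g p) = fun p => f p + -1 * g p := by
    funext p
    ring
  rw [e]
  exact h

theorem Bz.ofReal {g : P → ℝ} (h : Bd g) : Bz fun p => (g p : ℂ) := by
  obtain ⟨B, hB⟩ := h
  exact ⟨B, fun p => by rw [Complex.norm_real]; exact hB p⟩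

theorem Bz.sum {κ : Type*} (s : Finset κ) {f : κ → P → ℂ} (h : ∀ k ∈ s, Bz (f k)) :
    Bz fun p => ∑ k ∈ s, f k p := by
  classical
  induction s using Finset.induction_on with
  | empty => simpa using Bz.const (P := P) 0
  | insert a s ha ih =>
    simp only [sum_insert ha]
    exact (h a (mem_insert_self _ _)).add (ih fun k hk => h k (mem_insert_of_mem hk))

theorem Bz.prod {κ : Type*} (s : Finset κ) {f : κ → P → ℂ} (h : ∀ k ∈ s, Bz (f k)) :
    Bz fun p => ∏ k ∈ s, f k p := by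
  classical
  induction s using Finset.induction_on with
  | empty => simpa using Bz.const (P := P) 1
  | insert a s ha ih =>
    simp only [prod_insert ha]
    exact (h a (mem_insert_self _ _)).mul (ih fun k hk => h k (mem_insert_of_mem hk))

theorem Bz.pow {f : P → ℂ} (hf : Bz f) (k : ℕ) : Bz fun p => f p ^ k := by
  induction k with
  | zero => simpa using Bz.const (P := P) 1
  | succ k ih =>
    simp only [pow_succ]
    exact ih.mul hf

/-- the complex mean value -/
noncomputable def Ec (L : (P → ℝ) → ℝ) (f : P → ℂ) : ℂ :=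
  ⟨L fun p => (f p).re, L fun p => (f p).im⟩

variable {L : (P → ℝ) → ℝ} (hL : Lf L)

include hL

theorem lf_zero : L (fun _ => 0) = 0 := by
  have h := hL.smul 0 (fun _ => (0 : ℝ)) (Bd.const 0)
  simpa using h

theorem lf_const (c : ℝ) : L (fun _ => c) = c := by
  have h := hL.smul c (fun _ => (1 : ℝ)) (Bd.const 1)
  rw [hL.one, mul_one] at h
  simpa using h

theorem lf_sub {f g : P → ℝ} (hf : Bd f) (hg : Bd g) : L (fun p => f p - g p) = L f - L g := by
  have h1 := hL.add f (fun p => (-1) * g p) hf (hg.const_mul _)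
  rw [hL.smul _ _ hg] at h1
  have e : (fun p => f p - g p) = fun p => f p + (-1) * g p := by
    funext p
    ring
  rw [e, h1]
  ring

theorem lf_nonneg {g : P → ℝ} (hg : Bd g) (h : ∀ p, 0 ≤ g p) : 0 ≤ L g := by
  obtain ⟨B, hB⟩ := hg
  have h1 : ∀ p, |B - g p| ≤ B := by
    intro p
    have h2 := (abs_le.1 (hB p)).2
    rw [abs_of_nonneg (by linarith)]
    linarith [h p]
  have h2 := hL.le (fun p => B - g p) B ⟨B, h1⟩ h1
  rw [lf_sub hL (Bd.const B) ⟨B, hB⟩, lf_const hL] at h2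
  linarith [(abs_le.1 h2).2]

theorem lf_mono {f g : P → ℝ} (hf : Bd f) (hg : Bd g) (h : ∀ p, f p ≤ g p) : L f ≤ L g := by
  have h1 := lf_nonneg hL (hg.sub hf) fun p => sub_nonneg.2 (h p)
  rw [lf_sub hL hg hf] at h1
  linarith

theorem Ec_real {g : P → ℝ} : Ec L (fun p => (g p : ℂ)) = (L g : ℂ) := by
  unfold Ec
  apply Complex.ext
  · simp
  · simp [lf_zero hL]

theorem Ec_add {f g : P → ℂ} (hf : Bz f) (hg : Bz g) :
    Ec L (fun p => f p + g p) = Ec L f + Ec L g := by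
  unfold Ec
  apply Complex.ext
  · simp only [Complex.add_re]
    exact hL.add _ _ hf.re hg.re
  · simp only [Complex.add_im]
    exact hL.add _ _ hf.im hg.im

theorem Ec_smul (c : ℂ) {f : P → ℂ} (hf : Bz f) : Ec L (fun p => c * f p) = c * Ec L f := by
  unfold Ec
  apply Complex.ext
  · simp only [Complex.mul_re]
    rw [lf_sub hL (hf.re.const_mul _) (hf.im.const_mul _), hL.smul _ _ hf.re, hL.smul _ _ hf.im]
  · simp only [Complex.mul_im]
    rw [hL.add _ _ (hf.im.const_mul _) (hf.re.const_mul _), hL.smul _ _ hf.re,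
      hL.smul _ _ hf.im]

theorem Ec_const (c : ℂ) : Ec L (fun _ => c) = c := by
  unfold Ec
  apply Complex.ext
  · exact lf_const hL _
  · exact lf_const hL _

theorem Ec_sub {f g : P → ℂ} (hf : Bz f) (hg : Bz g) :
    Ec L (fun p => f p - g p) = Ec L f - Ec L g := by
  have e : (fun p => f p - g p) = fun p => f p + (-1) * g p := by
    funext p
    ring
  rw [e, Ec_add hL hf ((Bz.const _).mul hg), Ec_smul hL _ hg]
  ring

theorem Ec_sum {κ : Type*} (s : Finset κ) {f : κ → P → ℂ} (h : ∀ k ∈ s, Bz (f k)) :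
    Ec L (fun p => ∑ k ∈ s, f k p) = ∑ k ∈ s, Ec L (f k) := by
  classical
  induction s using Finset.induction_on with
  | empty => simpa using Ec_const hL 0
  | insert a s ha ih =>
    simp only [sum_insert ha]
    rw [Ec_add hL (h a (mem_insert_self _ _)) (Bz.sum _ fun k hk => h k (mem_insert_of_mem hk)),
      ih fun k hk => h k (mem_insert_of_mem hk)]

theorem Ec_norm {f : P → ℂ} {B : ℝ} (h : ∀ p, ‖f p‖ ≤ B) : ‖Ec L f‖ ≤ 2 * B := by
  have h1 := hL.le (fun p => (f p).re) B ⟨B, fun p => (Complex.abs_re_le_norm _).trans (h p)⟩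
    fun p => (Complex.abs_re_le_norm _).trans (h p)
  have h2 := hL.le (fun p => (f p).im) B ⟨B, fun p => (Complex.abs_im_le_norm _).trans (h p)⟩
    fun p => (Complex.abs_im_le_norm _).trans (h p)
  refine (Complex.norm_le_abs_re_add_abs_im _).trans ?_
  have h3 : |(Ec L f).re| ≤ B := h1
  have h4 : |(Ec L f).im| ≤ B := h2
  linarith

/-- products with a function of length zero -/
theorem Ec_null {D w : P → ℂ} (hD : Bz D) (hw : Bz w) (h : L (fun p => ‖D p‖ ^ 2) = 0) :
    Ec L (fun p => w p * D p) = 0 := by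
  have key : ∀ g : P → ℝ, (∃ C, ∀ p, |g p| ≤ C * ‖D p‖) → Bd g → L g = 0 := by
    rintro g ⟨C, hC⟩ hg
    have hC' : ∀ p, |g p| ≤ |C| * ‖D p‖ := fun p =>
      (hC p).trans (mul_le_mul_of_nonneg_right (le_abs_self C) (norm_nonneg _))
    have hb : Bd fun p => ‖D p‖ ^ 2 := hD.norm.sq
    have h1 : ∀ η : ℝ, 0 < η → |L g| ≤ η := by
      intro η hη
      have h2 : ∀ p, |g p| ≤ η + C ^ 2 / (4 * η) * ‖D p‖ ^ 2 := by
        intro p
        refine (hC' p).trans ?_
        have h3 : 0 ≤ (|C| * ‖D p‖ - 2 * η) ^ 2 := sq_nonneg _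
        have h4 : η + C ^ 2 / (4 * η) * ‖D p‖ ^ 2 - |C| * ‖D p‖ =
            (|C| * ‖D p‖ - 2 * η) ^ 2 / (4 * η) := by
          rw [← sq_abs C]
          field_simp
          ring
        have h5 : 0 ≤ (|C| * ‖D p‖ - 2 * η) ^ 2 / (4 * η) := by positivity
        linarith
      have hbb : Bd fun p => η + C ^ 2 / (4 * η) * ‖D p‖ ^ 2 := (Bd.const η).add (hb.const_mul _)
      have h3 : L (fun p => η + C ^ 2 / (4 * η) * ‖D p‖ ^ 2) = η := by
        rw [hL.add _ _ (Bd.const η) (hb.const_mul _), hL.smul _ _ hb, h, lf_const hL]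
        ring
      have h4 := lf_mono hL hg hbb fun p => (le_abs_self _).trans (h2 p)
      have h5 := lf_mono hL (hbb.neg) hg fun p => by
        have := (abs_le.1 (h2 p)).1
        linarith
      have h6 : L (fun p => -(η + C ^ 2 / (4 * η) * ‖D p‖ ^ 2)) = -η := by
        have := hL.smul (-1) _ hbb
        rw [h3] at this
        have e : (fun p => -(η + C ^ 2 / (4 * η) * ‖D p‖ ^ 2)) =
            fun p => (-1) * (η + C ^ 2 / (4 * η) * ‖D p‖ ^ 2) := by
          funext p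
          ring
        rw [e, this]
        ring
      rw [h3] at h4
      rw [h6] at h5
      exact abs_le.2 ⟨h5, h4⟩
    have h2 : |L g| ≤ 0 := le_of_forall_pos_le_add fun η hη => by
      rw [zero_add]
      exact h1 η hη
    exact abs_nonpos_iff.1 h2
  obtain ⟨C, hC⟩ := hw
  have hn : ∀ p, ‖w p * D p‖ ≤ C * ‖D p‖ := fun p => by
    rw [norm_mul]
    exact mul_le_mul_of_nonneg_right (hC p) (norm_nonneg _)
  have hwD : Bz fun p => w p * D p := Bz.mul ⟨C, hC⟩ hD
  apply Complex.ext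
  · exact key _ ⟨C, fun p => (Complex.abs_re_le_norm _).trans (hn p)⟩ hwD.re
  · exact key _ ⟨C, fun p => (Complex.abs_im_le_norm _).trans (hn p)⟩ hwD.im

/-- **The case of equality.** -/
theorem cs_key {Y Z : P → ℂ} (hY : Bz Y) (hZ : Bz Z) (h1 : L (fun p => ‖Y p‖ ^ 2) = 1)
    (h2 : L (fun p => ‖Z p‖ ^ 2) = 1) {m : ℤ} (h3 : Ec L (fun p => Y p * Z p) = m) (hm : m ≠ 0) :
    (m : ℝ) ^ 2 = 1 ∧ L (fun p => ‖Y p - m * conj (Z p)‖ ^ 2) = 0 := by
  have e : ∀ p, ‖Y p - m * conj (Z p)‖ ^ 2 =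
      (‖Y p‖ ^ 2 + (m : ℝ) ^ 2 * ‖Z p‖ ^ 2) - (2 * m) * (Y p * Z p).re := by
    intro p
    rw [← Complex.normSq_eq_norm_sq, ← Complex.normSq_eq_norm_sq, ← Complex.normSq_eq_norm_sq,
      Complex.normSq_apply, Complex.normSq_apply, Complex.normSq_apply]
    simp only [Complex.sub_re, Complex.sub_im, Complex.mul_re, Complex.mul_im, Complex.conj_re,
      Complex.conj_im, Complex.intCast_re, Complex.intCast_im]
    ring
  have hb1 : Bd fun p => ‖Y p‖ ^ 2 := hY.norm.sq
  have hb2 : Bd fun p => ‖Z p‖ ^ 2 := hZ.norm.sq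
  have hb3 : Bd fun p => (Y p * Z p).re := (hY.mul hZ).re
  have h4 : L (fun p => (Y p * Z p).re) = m := by
    have := congrArg Complex.re h3
    simpa [Ec] using this
  have h5 : L (fun p => ‖Y p - m * conj (Z p)‖ ^ 2) = 1 - (m : ℝ) ^ 2 := by
    simp only [e]
    rw [lf_sub hL (hb1.add (hb2.const_mul _)) (hb3.const_mul _),
      hL.add _ _ hb1 (hb2.const_mul _), hL.smul _ _ hb2, hL.smul _ _ hb3, h1, h2, h4]
    ring
  have h6 : 0 ≤ L (fun p => ‖Y p - m * conj (Z p)‖ ^ 2) :=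
    lf_nonneg hL ((hY.sub ((Bz.const _).mul hZ.conj)).norm.sq) fun p => by positivity
  rw [h5] at h6
  have h7 : m ^ 2 ≤ 1 := by
    have : (m : ℝ) ^ 2 ≤ 1 := by linarith
    exact_mod_cast this
  have h8 : m ^ 2 = 1 := by
    have : 0 < m ^ 2 := by positivity
    omega
  have h9 : (m : ℝ) ^ 2 = 1 := by exact_mod_cast h8
  exact ⟨h9, by rw [h5, h9, sub_self]⟩

/-- equality of the absolute values -/
theorem cs_abs {Y Z : P → ℂ} (hY : Bz Y) (hZ : Bz Z) (h1 : L (fun p => ‖Y p‖ ^ 2) = 1)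
    (h2 : L (fun p => ‖Z p‖ ^ 2) = 1) {m : ℤ} (h3 : Ec L (fun p => Y p * Z p) = m) (hm : m ≠ 0)
    {W : P → ℝ} (hW : Bd W) : L (fun p => W p * (‖Y p‖ ^ 2 - ‖Z p‖ ^ 2)) = 0 := by
  obtain ⟨h4, h5⟩ := cs_key hL hY hZ h1 h2 h3 hm
  have hZc : Bz fun p => (m : ℂ) * conj (Z p) := (Bz.const _).mul hZ.conj
  have h6 := Ec_null hL (D := fun p => Y p - m * conj (Z p))
    (w := fun p => (W p : ℂ) * conj (Y p + m * conj (Z p))) (hY.sub hZc)
    ((Bz.ofReal hW).mul (hY.add hZc).conj) h5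
  have h7 := congrArg Complex.re h6
  have e : (fun p => W p * (‖Y p‖ ^ 2 - ‖Z p‖ ^ 2)) = fun p =>
      ((W p : ℂ) * conj (Y p + m * conj (Z p)) * (Y p - m * conj (Z p))).re := by
    funext p
    rw [← Complex.normSq_eq_norm_sq, ← Complex.normSq_eq_norm_sq, Complex.normSq_apply,
      Complex.normSq_apply]
    simp only [Complex.sub_re, Complex.sub_im, Complex.add_re, Complex.add_im, Complex.mul_re,
      Complex.mul_im, Complex.conj_re, Complex.conj_im, Complex.intCast_re, Complex.intCast_im,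
      Complex.ofReal_re, Complex.ofReal_im]
    linear_combination ((W p) * ((Z p).re * (Z p).re + (Z p).im * (Z p).im)) * h4
  rw [e]
  exact h7

end

end Pool.Agent.Q284.GR
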