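import Pool.Agent.Q284.GR.Nf

/-! The joint laws. -/

set_option autoImplicit false
set_option linter.unusedSectionVars false

namespace Pool.Agent.Q284.GR

open Filter Topology ComplexConjugate MeasureTheory NumberField IsDedekindDomain
  Pool.Agent.Q284.JM Pool.Agent.Q284.IM Pool.Agent.TH553.RS Pool.Agent.TH553.ST
  Pool.Agent.W540.BE Pool.Agent.H341R2 Pool.Agent.Q284.CP
open scoped Kronecker

variable {K : Type} [Field K] [NumberField K] {ι : Type} [Fintype ι] [DecidableEq ι]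
  {G : ι → Type} [∀ i, Group (G i)] {Q : Type} [Group Q]
  {x : ∀ i, HeightOneSpectrum (𝓞 K) → G i} {z : HeightOneSpectrum (𝓞 K) → Q}
  [∀ i, TopologicalSpace (G i)] [∀ i, IsTopologicalGroup (G i)] [∀ i, CompactSpace (G i)]
  [∀ i, T2Space (G i)] [∀ i, MeasurableSpace (G i)] [∀ i, BorelSpace (G i)]
  {μ : ∀ i, Measure (G i)} [∀ i, IsProbabilityMeasure (μ i)] [∀ i, (μ i).IsHaarMeasure]
  [TopologicalSpace Q] [IsTopologicalGroup Q] [CompactSpace Q] [T2Space Q] [MeasurableSpace Q]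
  [BorelSpace Q] {ν : Measure Q} [IsProbabilityMeasure ν] [ν.IsHaarMeasure]

/-- the test functions -/
structure Ts (F : ∀ i, G i → ℂ) (f : Q → ℂ) : Prop where
  c : ∀ i, Continuous (F i)
  k : ∀ i g h, F i (h * g * h⁻¹) = F i g
  c' : Continuous f
  k' : ∀ g h, f (h * g * h⁻¹) = f g

/-- the function on the primes -/
noncomputable def fn (x : ∀ i, HeightOneSpectrum (𝓞 K) → G i) (z : HeightOneSpectrum (𝓞 K) → Q)
    (F : ∀ i, G i → ℂ) (f : Q → ℂ) (v : HeightOneSpectrum (𝓞 K)) : ℂ :=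
  f (z v) * ∏ i, F i (x i v)

/-- the integral -/
noncomputable def ig (μ : ∀ i, Measure (G i)) (ν : Measure Q) (F : ∀ i, G i → ℂ) (f : Q → ℂ) : ℂ :=
  (∫ q, f q ∂ν) * ∏ i, ∫ g, F i g ∂(μ i)

/-- the factors -/
def fc (x : ∀ i, HeightOneSpectrum (𝓞 K) → G i) (z : HeightOneSpectrum (𝓞 K) → Q)
    (F : ∀ i, G i → ℂ) (f : Q → ℂ) : Option ι → HeightOneSpectrum (𝓞 K) → ℂ
  | none => fun v => f (z v)
  | some i => fun v => F i (x i v)

theorem fn_eq (F : ∀ i, G i → ℂ) (f : Q → ℂ) (v : HeightOneSpectrum (𝓞 K)) :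
    fn x z F f v = ∏ j, fc x z F f j v := by
  rw [Fintype.prod_option]
  rfl

theorem fc_mem {F : ∀ i, G i → ℂ} {f : Q → ℂ} (h : Ts F f) (j : Option ι) :
    fc x z F f j ∈ Al x z j := by
  rcases j with _ | i
  · exact ⟨f, h.c', h.k', rfl⟩
  · exact ⟨F i, h.c i, h.k i, rfl⟩

theorem bz_fn {F : ∀ i, G i → ℂ} {f : Q → ℂ} (h : Ts F f) : Bz (fn x z F f) := by
  have e : fn x z F f = fun v => ∏ j, fc x z F f j v := funext fun v => fn_eq F f v
  rw [e]
  refine Bz.prod _ fun j _ => ?_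
  rcases j with _ | i
  · exact bz_AG (fc_mem (x := x) (z := z) h none)
  · exact bz_AG (fc_mem (x := x) (z := z) h (some i))

variable {L : (HeightOneSpectrum (𝓞 K) → ℝ) → ℝ}

/-- the value -/
theorem ind_val (hl : Lws L x z μ ν) (hI : Ind L (Al x z) Finset.univ) {F : ∀ i, G i → ℂ}
    {f : Q → ℂ} (h : Ts F f) : Ec L (fn x z F f) = ig μ ν F f := by
  have h1 := hI (fc x z F f) fun j _ => fc_mem h j
  have e : fn x z F f = fun v => ∏ j, fc x z F f j v := funext fun v => fn_eq F f v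
  rw [e, h1, Fintype.prod_option]
  unfold ig
  congr 1
  · exact Ec_law hl.1 h.c' h.k'
  · exact Finset.prod_congr rfl fun i _ => Ec_law (hl.2 i) (h.c i) (h.k i)

/-- the joint law in the sense of Dirichlet -/
def JD (x : ∀ i, HeightOneSpectrum (𝓞 K) → G i) (z : HeightOneSpectrum (𝓞 K) → Q)
    (μ : ∀ i, Measure (G i)) (ν : Measure Q) : Prop :=
  ∀ (F : ∀ i, G i → ℂ) (f : Q → ℂ), Ts F f →
    Tendsto (dm fun v => (fn x z F f v).re) (𝓝[>] 0) (𝓝 (ig μ ν F f).re) ∧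
    Tendsto (dm fun v => (fn x z F f v).im) (𝓝[>] 0) (𝓝 (ig μ ν F f).im)

/-- a representation gives test functions -/
theorem ts_chi {n : ι → ℕ} {π : ∀ i, G i →* Matrix.unitaryGroup (Fin (n i)) ℂ} {m : ℕ}
    {ρ : Q →* Matrix.unitaryGroup (Fin m) ℂ} (h : Rp n π m ρ) :
    Ts (fun i => chi (π i)) (chi ρ) :=
  ⟨fun i => cont_chi (h.pc i), fun i g h => chi_cls (π i) g h, cont_chi h.rc,
    fun g h => chi_cls ρ g h⟩

theorem ig_chi {n : ι → ℕ} {π : ∀ i, G i →* Matrix.unitaryGroup (Fin (n i)) ℂ} {m : ℕ}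
    {ρ : Q →* Matrix.unitaryGroup (Fin m) ℂ} (h : Rp n π m ρ) (hm : Mx π ρ) :
    ig μ ν (fun i => chi (π i)) (chi ρ) = 0 := by
  obtain ⟨i, hi, -⟩ := hm
  unfold ig
  rw [Finset.prod_eq_zero (Finset.mem_univ i) (int_chi (h.pc i) (h.ps i) hi), mul_zero]

/-- **The law gives the orders.** -/
theorem order_of_law (hJ : JD x z μ ν) {n : ι → ℕ}
    {π : ∀ i, G i →* Matrix.unitaryGroup (Fin (n i)) ℂ} {m : ℕ}
    {ρ : Q →* Matrix.unitaryGroup (Fin m) ℂ} (h : Rp n π m ρ) (hm : Mx π ρ) {Λ : ℂ → ℂ}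
    (hΛ : Cn x z π ρ 0 Λ) : meromorphicOrderAt Λ 1 = ((0 : ℤ) : WithTop ℤ) := by
  obtain ⟨k, hk0, hk⟩ := int_LT hΛ
  set U : Ultrafilter ℝ := Ultrafilter.of (𝓝[>] 0) with hU
  have hU' : (U : Filter ℝ) ≤ 𝓝[>] 0 := Ultrafilter.of_le _
  have h1 := hk U hU'
  rw [Ec_one_mul wt_zero] at h1
  have h2 := (hJ _ _ (ts_chi h)).1
  have h3 := M_of_dm h2 hU'
  rw [ig_chi h hm] at h3
  have h4 := congrArg Complex.re h1
  have h5 : ((-k : ℤ) : ℂ).re = ((-k : ℤ) : ℝ) := Complex.intCast_re _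
  rw [h5] at h4
  have h6 : (Ec (M (nm K) U) fun v => chi ρ (z v) * ∏ i, chi (π i) (x i v)).re =
      M (nm K) U (fun v => (fn x z (fun i => chi (π i)) (chi ρ) v).re) := rfl
  rw [h6, h3] at h4
  have h7 : k = 0 := by
    have : ((-k : ℤ) : ℝ) = 0 := by rw [← h4]; simp
    have h8 : (-k : ℤ) = 0 := by exact_mod_cast this
    omega
  have e2 : (1 : ℂ) + ((0 : ℝ) : ℂ) * Complex.I = 1 := by simp
  rw [e2] at hk0
  rw [hk0, h7]

variable [Finite Q] [∀ i, ConnectedSpace (G i)]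

/-- **The joint law in the sense of Dirichlet.** -/
theorem law_dir (hx : ∀ i, Law (x i) (μ i)) (hz : Law z ν)
    (hP : ∀ i j : ι, i ≠ j → Perf (G i) ∨ Perf (G j))
    (hc0 : ∀ (n : ι → ℕ) (π : ∀ i, G i →* Matrix.unitaryGroup (Fin (n i)) ℂ) (m : ℕ)
      (ρ : Q →* Matrix.unitaryGroup (Fin m) ℂ), Rp n π m ρ → Mx π ρ → ∃ Λ, Cn x z π ρ 0 Λ)
    (ha : Pr x z μ) : JD x z μ ν := by
  intro F f h
  have key : ∀ U : Ultrafilter ℝ, (U : Filter ℝ) ≤ 𝓝[>] 0 →
      Ec (M (nm K) U) (fn x z F f) = ig μ ν F f := fun U hU =>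
    ind_val ⟨lw_M hz hU, fun i => lw_M (hx i) hU⟩ (ind_all hx hz hP hc0 ha hU Finset.univ) h
  have hb : Bz (fn x z F f) := bz_fn h
  exact ⟨dm_tendsto hb.re fun U hU => congrArg Complex.re (key U hU),
    dm_tendsto hb.im fun U hU => congrArg Complex.im (key U hU)⟩

/-- **The twisted means vanish.** -/
theorem order_line (hx : ∀ i, Law (x i) (μ i)) (hz : Law z ν)
    (hP : ∀ i j : ι, i ≠ j → Perf (G i) ∨ Perf (G j))
    (hc0 : ∀ (n : ι → ℕ) (π : ∀ i, G i →* Matrix.unitaryGroup (Fin (n i)) ℂ) (m : ℕ)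
      (ρ : Q →* Matrix.unitaryGroup (Fin m) ℂ), Rp n π m ρ → Mx π ρ → ∃ Λ, Cn x z π ρ 0 Λ)
    (ha : Pr x z μ) {n : ι → ℕ} {π : ∀ i, G i →* Matrix.unitaryGroup (Fin (n i)) ℂ} {m : ℕ}
    {ρ : Q →* Matrix.unitaryGroup (Fin m) ℂ} (hR : Rp n π m ρ) (hM : Mx π ρ) {τ : ℝ} {Λ : ℂ → ℂ}
    (hΛ : Cn x z π ρ τ Λ) :
    meromorphicOrderAt Λ (1 + τ * Complex.I) = ((0 : ℤ) : WithTop ℤ) := by
  classical
  obtain ⟨k, hk0, hk⟩ := int_LT hΛ
  set U : Ultrafilter ℝ := Ultrafilter.of (𝓝[>] 0) with hUd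
  have hU : (U : Filter ℝ) ≤ 𝓝[>] 0 := Ultrafilter.of_le _
  have hL := lf_M (sysF K) hU
  have hl : Lws (M (nm K) U) x z μ ν := ⟨lw_M hz hU, fun i => lw_M (hx i) hU⟩
  have hI := ind_all hx hz hP hc0 ha hU
  set c : Option ι → HeightOneSpectrum (𝓞 K) → ℂ := fc x z (fun i => chi (π i)) (chi ρ) with hc
  have hcC : ∀ j, c j ∈ Ch x z j := by
    rintro (_ | i)
    · exact ⟨m, ρ, hR.rn, hR.rc, hR.rs, rfl⟩
    · exact ⟨n i, π i, hR.pn i, hR.pc i, hR.ps i, rfl⟩
  have hci : ∀ i, (∃ g, π i g ≠ 1) → c (some i) ≠ fun _ => 1 := by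
    rintro i ⟨g, hg⟩ h
    exact hg (triv_of hL (hl.2 i) (hR.pc i) (hR.ps i) h g)
  have hc0' : (∃ g, ρ g ≠ 1) → c none ≠ fun _ => 1 := by
    rintro ⟨g, hg⟩ h
    exact hg (triv_of hL hl.1 hR.rc hR.rs h g)
  have hne : ∃ i j, i ≠ j ∧ c i ≠ (fun _ => 1) ∧ c j ≠ fun _ => 1 := by
    obtain ⟨i, hi, h | h⟩ := hM
    · obtain ⟨j, hj, hjn⟩ := h
      exact ⟨some i, some j, fun h' => hj (Option.some_injective _ h').symm, hci i hi, hci j hjn⟩
    · exact ⟨some i, none, by simp, hci i hi, hc0' h⟩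
  have e1 : (fun v => wt K τ v * (chi ρ (z v) * ∏ i, chi (π i) (x i v))) =
      fun v => wt K τ v * ∏ j, c j v := by
    funext v
    rw [Fintype.prod_option]
    rfl
  have h1 := hk U hU
  rw [e1] at h1
  have key : ∀ i : ι, c (some i) ≠ (fun _ => 1) → (∀ l, l ≠ some i → l ≠ none → c l = fun _ => 1) →
      Ec (M (nm K) U) (fun v => wt K τ v * (c (some i) v * c none v)) = 0 := by
    intro i hi hlt
    have h3 : (fun v => wt K τ v * ∏ j, c j v) =
        fun v => wt K τ v * (c (some i) v * c none v) := by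
      funext v
      rw [prod_two (c := c) (i := some i) (j := none) (by simp) hlt]
    rw [h3] at h1
    have h4 := gal_pair hx hz hU (i := i) (hcC (some i)) (hcC none) hi τ h1
    rw [h1, h4]
    norm_num
  have h2 := all_twist hL (dat hl) hI (pf G) (pf_one hl) (norm_wt τ) (tri hP) hcC
    (fun i j hij hi hj hin hjn hlt => ?_) hne ⟨_, h1⟩
  · rw [h1] at h2
    have h3 : (-k : ℤ) = 0 := by exact_mod_cast h2
    rw [hk0, show k = 0 by omega]
  · rcases i with _ | i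
    · rcases j with _ | j
      · exact absurd rfl hij
      · rw [← key j hjn fun l h3 h4 => hlt l h4 h3]
        congr 1
        funext v
        ring
    · rcases j with _ | j
      · exact key i hin hlt
      · rcases hP i j (fun h => hij (by rw [h])) with h | h
        · exact absurd h hi
        · exact absurd h hj

/-- **The joint law in the sense of the natural density.** -/
theorem law_nat (hx : ∀ i, Law (x i) (μ i)) (hz : Law z ν)
    (hP : ∀ i j : ι, i ≠ j → Perf (G i) ∨ Perf (G j))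
    (hcl : ∀ (n : ι → ℕ) (π : ∀ i, G i →* Matrix.unitaryGroup (Fin (n i)) ℂ) (m : ℕ)
      (ρ : Q →* Matrix.unitaryGroup (Fin m) ℂ), Rp n π m ρ → Mx π ρ → ∀ τ : ℝ,
      ∃ Λ, Cn x z π ρ τ Λ)
    (ha : Pr x z μ) {F : ∀ i, G i → ℂ} {f : Q → ℂ} (h : Ts F f) :
    Tendsto (mn (fn x z F f)) atTop (𝓝 (ig μ ν F f)) := by
  classical
  have hc0 := fun n π m ρ hR hM => hcl n π m ρ hR hM 0
  have havg : ∀ (n : ι → ℕ) (π : ∀ i, G i →* Matrix.unitaryGroup (Fin (n i)) ℂ) (m : ℕ)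
      (ρ : Q →* Matrix.unitaryGroup (Fin m) ℂ), Rp n π m ρ → Mx π ρ →
      Tendsto (mn fun v => chi ρ (z v) * ∏ i, chi (π i) (x i v)) atTop (𝓝 0) := by
    intro n π m ρ hR hM
    refine avg_LT fun τ => ?_
    obtain ⟨Λ, hΛ⟩ := hcl n π m ρ hR hM τ
    exact ⟨Λ, hΛ, order_line hx hz hP hc0 ha hR hM hΛ⟩
  have hb : Bz (fn x z F f) := bz_fn h
  rw [Filter.tendsto_iff_ultrafilter]
  intro V hV
  obtain ⟨L, hL, hLV⟩ := exists_lf (K := K) hV
  have hl : Lws L x z μ ν := ⟨lw_mn hz hV hLV, fun i => lw_mn (hx i) hV hLV⟩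
  have hlim : ∀ g : HeightOneSpectrum (𝓞 K) → ℂ, Bz g → Tendsto (mn g) V (𝓝 (Ec L g)) := by
    intro g hg
    have h1 := hLV _ hg.re
    have h2 := hLV _ hg.im
    have h3 := ((Complex.continuous_ofReal.tendsto _).comp h1).add
      (((Complex.continuous_ofReal.tendsto _).comp h2).mul_const Complex.I)
    have h4 : ((L fun p => (g p).re : ℝ) : ℂ) + ((L fun p => (g p).im : ℝ) : ℂ) * Complex.I =
        Ec L g := by
      apply Complex.ext <;> simp [Ec]
    rw [h4] at h3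
    refine h3.congr fun N => ?_
    simp only [Function.comp]
    rw [← re_mn, ← im_mn]
    exact Complex.re_add_im _
  have hI : Ind L (Al x z) Finset.univ := by
    refine weyl hL (dat hl) Finset.univ fun T _ hT c hc => ?_
    rcases Nat.lt_or_ge 1 T.card with h1 | h1
    · obtain ⟨i, hi, j, hj, hij⟩ := Finset.one_lt_card.1 h1
      set e : Option ι → HeightOneSpectrum (𝓞 K) → ℂ := fun l =>
        if l ∈ T then c l else fun _ => 1 with he
      have heT : ∀ l ∈ T, e l = c l := fun l hl => by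
        rw [he]
        simp only [if_pos hl]
      have heC : ∀ l, e l ∈ Ch x z l := fun l => by
        rw [he]
        simp only
        split_ifs with hlT
        · exact (hc l hlT).1
        · exact (dat hl).one l
      obtain ⟨n, π, m, ρ, hR, heq, h2, h3, -⟩ := exists_rp hL hl heC
      have h4 := havg n π m ρ hR (mixed_of h2 h3 ⟨i, j, hij, by
        rw [heT i hi]
        exact (hc i hi).2, by
        rw [heT j hj]
        exact (hc j hj).2⟩)
      have e1 : (fun v => chi ρ (z v) * ∏ i, chi (π i) (x i v)) = fun p => ∏ j ∈ T, c j p := by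
        funext v
        rw [← heq]
        symm
        refine (Finset.prod_congr rfl fun l hl => by rw [← heT l hl]).trans
          (Finset.prod_subset (Finset.subset_univ T) fun l _ hl => ?_)
        rw [he]
        simp only [if_neg hl]
      rw [e1] at h4
      have h5 : Bz fun p => ∏ j ∈ T, c j p := Bz.prod _ fun j hj =>
        (dat hl).bz j _ ((dat hl).sub j (hc j hj).1)
      exact tendsto_nhds_unique (hlim _ h5) (h4.mono_left hV)
    · have h2 : T.card = 1 := le_antisymm h1 hT.card_pos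
      obtain ⟨j, hj⟩ := Finset.card_eq_one.1 h2
      subst hj
      simp only [Finset.prod_singleton]
      exact ort hl j _ (hc j (Finset.mem_singleton_self j)).1
        (hc j (Finset.mem_singleton_self j)).2
  rw [← ind_val hl hI h]
  exact hlim _ hb

end Pool.Agent.Q284.GR
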