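import Pool.Agent.Q284.GR.Pf
import Pool.Agent.Q284.CP.Tb
import Pool.Agent.Q284.JM.Fin

/-! The finite quotients of the Galois group. -/

set_option autoImplicit false
set_option linter.unusedSectionVars false

namespace Pool.Agent.Q284.GR

open Filter Topology ComplexConjugate MeasureTheory NumberField IsDedekindDomain
  Pool.Agent.Q284.JM Pool.Agent.TH553.RS Pool.Agent.TH553.ST Pool.Agent.W540.BE
  Pool.Agent.H341R2 Pool.Agent.W401.Cheb

section

/-- the integral on a finite group -/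
theorem int_fin {Q : Type} [Group Q] [TopologicalSpace Q] [IsTopologicalGroup Q]
    [DiscreteTopology Q] [Finite Q] [MeasurableSpace Q] [BorelSpace Q] (μ : Measure Q)
    [IsProbabilityMeasure μ] [μ.IsHaarMeasure] (f : Q → ℂ) :
    ∫ q, f q ∂μ = (Nat.card Q : ℂ)⁻¹ * ∑ᶠ q, f q := by
  classical
  let _ : Fintype Q := Fintype.ofFinite Q
  have hm : ∀ q : Q, μ.real {q} = μ.real {(1 : Q)} := by
    intro q
    have h1 : μ ((fun h => q * h) '' {(1 : Q)}) = μ {(1 : Q)} := by
      rw [Set.image_mul_left]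
      exact measure_preimage_mul μ q⁻¹ {1}
    rw [Set.image_singleton, mul_one] at h1
    unfold Measure.real
    rw [h1]
  have hsum : ∑ q : Q, μ.real {q} = 1 := by
    have h1 : μ.real (Set.univ : Set Q) = 1 := by simp
    have h2 : μ.real (↑(Finset.univ : Finset Q) : Set Q) = ∑ q ∈ Finset.univ, μ.real {q} :=
      (sum_measureReal_singleton _).symm
    rw [Finset.coe_univ] at h2
    rw [← h2, h1]
  have hc : (Nat.card Q : ℝ) * μ.real {(1 : Q)} = 1 := by
    rw [← hsum, Finset.sum_congr rfl fun q _ => hm q, Finset.sum_const, Finset.card_univ,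
      nsmul_eq_mul, Nat.card_eq_fintype_card]
  have hne : (Nat.card Q : ℝ) ≠ 0 := by
    have : Nat.card Q ≠ 0 := Nat.card_pos.ne'
    exact_mod_cast this
  have h1 : μ.real {(1 : Q)} = (Nat.card Q : ℝ)⁻¹ := by
    field_simp
    linarith
  rw [integral_fintype (Integrable.of_finite), finsum_eq_sum_of_fintype, Finset.mul_sum]
  refine Finset.sum_congr rfl fun q _ => ?_
  rw [hm, h1, Complex.real_smul]
  push_cast
  rfl

end

section

variable {K : Type} [Field K] [NumberField K]

/-- **Chebotarev.** -/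
theorem law_gal (W : Subgroup (GK K)) [W.Normal] (hW : IsOpen (W : Set (GK K)))
    [Finite (GK K ⧸ W)] [MeasurableSpace (GK K ⧸ W)] [BorelSpace (GK K ⧸ W)]
    (μ : Measure (GK K ⧸ W)) [IsProbabilityMeasure μ] [μ.IsHaarMeasure]
    (σ : HeightOneSpectrum (𝓞 K) → GK K) (hσ : ∀ v, IsFrob v (σ v)) :
    Law (fun v => (QuotientGroup.mk (σ v) : GK K ⧸ W)) μ := by
  have : DiscreteTopology (GK K ⧸ W) := QuotientGroup.discreteTopology hW
  intro f _ hcl
  have h1 := cheb_mean (F := K) W hW (fun q => (f q : ℂ)) (fun a g => by rw [hcl]) σ hσ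
  rw [← int_fin μ] at h1
  have h2 := mn_of_pi h1
  have h3 : ∫ q, (f q : ℂ) ∂μ = ((∫ q, f q ∂μ : ℝ) : ℂ) := integral_ofReal
  rw [h3] at h2
  have h4 := (Complex.continuous_re.tendsto _).comp h2
  refine h4.congr fun N => ?_
  simp only [Function.comp]
  rw [re_mn]
  rfl

variable {H : Type} [Group H] [TopologicalSpace H] [IsTopologicalGroup H]
  [CompactSpace H] [MeasurableSpace H] [BorelSpace H] {μ : Measure H}
  [IsProbabilityMeasure μ] [μ.IsHaarMeasure] {y : HeightOneSpectrum (𝓞 K) → H}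

theorem lw_M (h : Law y μ) {U : Ultrafilter ℝ} (hU : (U : Filter ℝ) ≤ 𝓝[>] 0) :
    LW (M (nm K) U) y μ := fun _ hF hcl => M_law h hU hF hcl

theorem lw_mn (h : Law y μ) {V : Ultrafilter ℕ} (hV : (V : Filter ℕ) ≤ atTop)
    {L : (HeightOneSpectrum (𝓞 K) → ℝ) → ℝ} (hLV : ∀ g, Bd g → Tendsto (mn g) V (𝓝 (L g))) :
    LW L y μ := fun F hF hcl =>
  tendsto_nhds_unique (hLV _ (bd_cont hF y)) ((h F hF hcl).mono_left hV)

/-- the twist by a power of the norm -/
noncomputable def wt (K : Type) [Field K] [NumberField K] (τ : ℝ) (v : HeightOneSpectrum (𝓞 K)) :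
    ℂ := ((nm K v : ℕ) : ℂ) ^ (-(τ * Complex.I : ℂ))

theorem norm_wt (τ : ℝ) (v : HeightOneSpectrum (𝓞 K)) : ‖wt K τ v‖ = 1 := norm_cpow_I (nm_pos v) τ

theorem wt_zero (v : HeightOneSpectrum (𝓞 K)) : wt K 0 v = 1 := by
  unfold wt
  simp

theorem wt_pow (τ : ℝ) (l : ℕ) (v : HeightOneSpectrum (𝓞 K)) : wt K τ v ^ l = wt K (l * τ) v := by
  unfold wt
  rw [← Complex.cpow_nat_mul]
  congr 1
  push_cast
  ring

/-- the twisted means of class functions -/
theorem Ec_wt (h : Law y μ) {U : Ultrafilter ℝ} (hU : (U : Filter ℝ) ≤ 𝓝[>] 0) {F : H → ℂ}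
    (hF : Continuous F) (hcl : ∀ g h, F (h * g * h⁻¹) = F g) (h0 : ∫ g, F g ∂μ = 0) (τ : ℝ) :
    Ec (M (nm K) U) (fun v => wt K τ v * F (y v)) = 0 := by
  have key : ∀ a : ℂ, (M (nm K) U fun v => ((a * F (y v)) * wt K τ v).re) = 0 := by
    intro a
    have hc : Continuous fun g => a * F g := continuous_const.mul hF
    obtain ⟨C, hC⟩ := (isCompact_univ (X := H)).exists_bound_of_continuousOn hc.continuousOn
    have h1 := law_c h (f := fun g => a * F g) hc fun g h => by rw [hcl]
    rw [integral_const_mul, h0, mul_zero] at h1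
    exact M_height hU (g := fun v => a * F (y v)) ⟨C, fun v => hC _ (Set.mem_univ _)⟩ h1 τ
  apply Complex.ext
  · have h1 := key 1
    simp only [one_mul] at h1
    rw [Complex.zero_re]
    refine Eq.trans ?_ h1
    change M (nm K) U (fun v => (wt K τ v * F (y v)).re) = _
    congr 1
    funext v
    rw [mul_comm]
  · have h1 := key (-Complex.I)
    rw [Complex.zero_im]
    refine Eq.trans ?_ h1
    change M (nm K) U (fun v => (wt K τ v * F (y v)).im) = _
    congr 1
    funext v
    simp only [Complex.mul_re, Complex.mul_im, Complex.neg_re, Complex.neg_im, Complex.I_re,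
      Complex.I_im]
    ring

end

end Pool.Agent.Q284.GR
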