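import Pool.Agent.Q284.GR.Ab

/-! The independence of several algebras of functions. -/

set_option autoImplicit false
set_option linter.unusedSectionVars false

namespace Pool.Agent.Q284.GR

open Finset Filter Topology ComplexConjugate Pool.Agent.Q284.JM Pool.Agent.TH553.RS

variable {P : Type} {J : Type} [Fintype J] [DecidableEq J]

/-- algebras with characters -/
structure Dat (L : (P → ℝ) → ℝ) (Ch Al : J → Set (P → ℂ)) : Prop where
  one : ∀ j, (fun _ => (1 : ℂ)) ∈ Ch j
  sub : ∀ j, Ch j ⊆ Al j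
  bz : ∀ j, ∀ f ∈ Al j, Bz f
  sq : ∀ j, ∀ c ∈ Ch j, (fun p => ((‖c p‖ ^ 2 : ℝ) : ℂ)) ∈ Al j
  qu : ∀ j, ∀ c ∈ Ch j, (fun p => ((‖c p‖ ^ 4 : ℝ) : ℂ)) ∈ Al j
  nrm : ∀ j, ∀ c ∈ Ch j, L (fun p => ‖c p‖ ^ 2) = 1
  dns : ∀ j, ∀ f ∈ Al j, ∀ ε : ℝ, 0 < ε → ∃ (n : ℕ) (a : Fin n → ℂ) (c : Fin n → P → ℂ),
    (∀ k, c k ∈ Ch j) ∧ ∀ p, ‖f p - ∑ k, a k * c k p‖ ≤ ε

/-- independence -/
def Ind (L : (P → ℝ) → ℝ) (Al : J → Set (P → ℂ)) (T : Finset J) : Prop :=
  ∀ f : J → P → ℂ, (∀ j ∈ T, f j ∈ Al j) →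
    Ec L (fun p => ∏ j ∈ T, f j p) = ∏ j ∈ T, Ec L (f j)

variable {L : (P → ℝ) → ℝ} {Ch Al : J → Set (P → ℂ)}

/-- the density of the characters -/
theorem dens_zero (hL : Lf L) (D : Dat L Ch Al) (j : J) {R : P → ℂ} (hR : Bz R) (Q : ℂ)
    (h : ∀ c ∈ Ch j, Ec L (fun p => c p * R p) = Ec L c * Q) {f : P → ℂ} (hf : f ∈ Al j) :
    Ec L (fun p => f p * R p) = Ec L f * Q := by
  obtain ⟨B, hB⟩ := hR
  have hB0 : ∀ p, ‖R p‖ ≤ |B| := fun p => (hB p).trans (le_abs_self _)
  have key : ∀ ε : ℝ, 0 < ε → ‖Ec L (fun p => f p * R p) - Ec L f * Q‖ ≤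
      ε * (2 * |B| + 2 * ‖Q‖) := by
    intro ε hε
    obtain ⟨n, a, c, hc, hfc⟩ := D.dns j f hf ε hε
    have hcb : ∀ k, Bz (c k) := fun k => D.bz j _ (D.sub j (hc k))
    have hS : Bz fun p => ∑ k, a k * c k p := Bz.sum _ fun k _ => (Bz.const _).mul (hcb k)
    have hfb := D.bz j f hf
    have hRb : Bz R := ⟨B, hB⟩
    have e1 : Ec L (fun p => (∑ k, a k * c k p) * R p) = Ec L (fun p => ∑ k, a k * c k p) * Q := by
      have e2 : (fun p => (∑ k, a k * c k p) * R p) = fun p => ∑ k, a k * (c k p * R p) := by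
        funext p
        rw [Finset.sum_mul]
        exact Finset.sum_congr rfl fun k _ => by ring
      rw [e2, Ec_sum hL _ fun k _ => (Bz.const _).mul ((hcb k).mul hRb),
        Ec_sum hL _ fun k _ => (Bz.const _).mul (hcb k), Finset.sum_mul]
      refine Finset.sum_congr rfl fun k _ => ?_
      rw [Ec_smul hL _ ((hcb k).mul hRb), Ec_smul hL _ (hcb k), h _ (hc k)]
      ring
    have e3 : Ec L (fun p => f p * R p) - Ec L f * Q =
        Ec L (fun p => (f p - ∑ k, a k * c k p) * R p) -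
          Ec L (fun p => f p - ∑ k, a k * c k p) * Q := by
      have e4 : (fun p => (f p - ∑ k, a k * c k p) * R p) =
          fun p => f p * R p - (∑ k, a k * c k p) * R p := by
        funext p
        ring
      rw [e4, Ec_sub hL (hfb.mul hRb) (hS.mul hRb), Ec_sub hL hfb hS, e1]
      ring
    rw [e3]
    refine (norm_sub_le _ _).trans ?_
    have h1 : ‖Ec L (fun p => (f p - ∑ k, a k * c k p) * R p)‖ ≤ 2 * (ε * |B|) :=
      Ec_norm hL fun p => by
        rw [norm_mul]
        exact mul_le_mul (hfc p) (hB0 p) (norm_nonneg _) hε.le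
    have h2 : ‖Ec L (fun p => f p - ∑ k, a k * c k p)‖ ≤ 2 * ε := Ec_norm hL hfc
    rw [norm_mul]
    have h3 := mul_le_mul_of_nonneg_right h2 (norm_nonneg Q)
    linarith
  have h5 : ‖Ec L (fun p => f p * R p) - Ec L f * Q‖ ≤ 0 := by
    refine le_of_forall_pos_le_add fun η hη => ?_
    rw [zero_add]
    have hC : 0 < 2 * |B| + 2 * ‖Q‖ + 1 := by positivity
    have h6 := key (η / (2 * |B| + 2 * ‖Q‖ + 1)) (by positivity)
    refine h6.trans ?_
    rw [div_mul_eq_mul_div, div_le_iff₀ hC]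
    nlinarith
  exact sub_eq_zero.1 (norm_le_zero_iff.1 h5)

/-- **Weyl criterion.** -/
theorem weyl (hL : Lf L) (D : Dat L Ch Al) (T : Finset J)
    (h : ∀ T' ⊆ T, T'.Nonempty → ∀ c : J → P → ℂ,
      (∀ j ∈ T', c j ∈ Ch j ∧ c j ≠ fun _ => 1) → Ec L (fun p => ∏ j ∈ T', c j p) = 0) :
    Ind L Al T := by
  classical
  have key : ∀ S : Finset J, ∀ f : J → P → ℂ, (∀ j ∈ T, f j ∈ Al j) →
      (∀ j ∈ T, j ∉ S → f j ∈ Ch j) →
      Ec L (fun p => ∏ j ∈ T, f j p) = ∏ j ∈ T, Ec L (f j) := by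
    intro S
    induction S using Finset.induction_on with
    | empty =>
      intro f _ hf
      set T' : Finset J := T.filter fun j => f j ≠ fun _ => 1 with hT'
      have e1 : (fun p => ∏ j ∈ T, f j p) = fun p => ∏ j ∈ T', f j p := by
        funext p
        symm
        refine prod_subset (filter_subset _ _) fun j hj hj' => ?_
        have h1 : f j = fun _ => 1 := by
          by_contra h2
          exact hj' (mem_filter.2 ⟨hj, h2⟩)
        rw [h1]
      rw [e1]
      have e2 : ∏ j ∈ T, Ec L (f j) = ∏ j ∈ T', Ec L (f j) := by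
        symm
        refine prod_subset (filter_subset _ _) fun j hj hj' => ?_
        have h1 : f j = fun _ => 1 := by
          by_contra h2
          exact hj' (mem_filter.2 ⟨hj, h2⟩)
        rw [h1, Ec_const hL]
      rw [e2]
      rcases T'.eq_empty_or_nonempty with h1 | h1
      · rw [h1]
        simp only [prod_empty]
        exact Ec_const hL 1
      · have hc : ∀ j ∈ T', f j ∈ Ch j ∧ f j ≠ fun _ => 1 := fun j hj =>
          ⟨hf j (mem_filter.1 hj).1 (notMem_empty _), (mem_filter.1 hj).2⟩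
        rw [h T' (filter_subset _ _) h1 f hc]
        obtain ⟨j, hj⟩ := h1
        symm
        refine prod_eq_zero hj ?_
        have h2 := h {j} (singleton_subset_iff.2 (mem_filter.1 hj).1) (singleton_nonempty j) f
          fun k hk => by
            rw [mem_singleton] at hk
            subst hk
            exact hc k hj
        simpa using h2
    | insert a S _ ih =>
      intro f hfA hfC
      by_cases ha : a ∈ T
      · have hins : insert a (T.erase a) = T := insert_erase ha
        have hbR : Bz fun p => ∏ j ∈ T.erase a, f j p :=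
          Bz.prod _ fun j hj => D.bz j _ (hfA j (mem_of_mem_erase hj))
        have h2 := dens_zero hL D a hbR (∏ j ∈ T.erase a, Ec L (f j)) (fun c hc => ?_) (hfA a ha)
        · rw [← mul_prod_erase T _ ha]
          rw [← h2]
          congr 1
          funext p
          rw [← mul_prod_erase T _ ha]
        · have h3 := ih (Function.update f a c) (fun j hj => ?_) (fun j hj hjS => ?_)
          · rw [← mul_prod_erase T _ ha, Function.update_self] at h3
            have e1 : ∏ j ∈ T.erase a, Ec L (Function.update f a c j) =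
                ∏ j ∈ T.erase a, Ec L (f j) := by
              refine prod_congr rfl fun j hj => ?_
              rw [Function.update_of_ne (ne_of_mem_erase hj)]
            rw [e1] at h3
            rw [← h3]
            congr 1
            funext p
            rw [← mul_prod_erase T _ ha, Function.update_self]
            congr 1
            refine prod_congr rfl fun j hj => ?_
            rw [Function.update_of_ne (ne_of_mem_erase hj)]
          · by_cases hja : j = a
            · subst hja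
              rw [Function.update_self]
              exact D.sub j hc
            · rw [Function.update_of_ne hja]
              exact hfA j hj
          · by_cases hja : j = a
            · subst hja
              rw [Function.update_self]
              exact hc
            · rw [Function.update_of_ne hja]
              exact hfC j hj fun h4 => by
                rcases mem_insert.1 h4 with h5 | h5
                · exact hja h5
                · exact hjS h5
      · refine ih f hfA fun j hj hjS => hfC j hj fun h4 => ?_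
        rcases mem_insert.1 h4 with h5 | h5
        · exact ha (h5 ▸ hj)
        · exact hjS h5
  intro f hf
  exact key T f hf fun j hj hj' => absurd hj hj'

theorem Ec_re {g : P → ℝ} {a : ℝ} (hL : Lf L) (h : Ec L (fun p => (g p : ℂ)) = a) : L g = a := by
  rw [Ec_real hL] at h
  exact_mod_cast h

/-- **The argument of Goursat and Ribet.** -/
theorem core (hL : Lf L) (D : Dat L Ch Al) {T : Finset J} {i j : J} (hi : i ∈ T) (hj : j ∈ T)
    (hij : i ≠ j) (h1 : Ind L Al (T.erase i)) (h2 : Ind L Al {i, j}) {c : J → P → ℂ}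
    (hc : ∀ l ∈ T, c l ∈ Ch l) {w : P → ℂ} (hw : ∀ p, ‖w p‖ = 1) {m : ℤ}
    (hm : Ec L (fun p => w p * ∏ l ∈ T, c l p) = m) (hm0 : m ≠ 0) :
    L (fun p => ‖c j p‖ ^ 4) = 1 := by
  have hcb : ∀ l ∈ T, Bz (c l) := fun l hl => D.bz l _ (D.sub l (hc l hl))
  have hwb : Bz w := ⟨1, fun p => (hw p).le⟩
  set Z : P → ℂ := fun p => w p * ∏ l ∈ T.erase i, c l p with hZ
  have hZb : Bz Z := hwb.mul (Bz.prod _ fun l hl => hcb l (mem_of_mem_erase hl))
  have hZn : ∀ p, ‖Z p‖ ^ 2 = ∏ l ∈ T.erase i, ‖c l p‖ ^ 2 := by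
    intro p
    rw [hZ]
    simp only
    rw [norm_mul, hw, one_mul, norm_prod, prod_pow]
  have hEc2 : ∀ l ∈ T, Ec L (fun p => ((‖c l p‖ ^ 2 : ℝ) : ℂ)) = 1 := by
    intro l hl
    rw [Ec_real hL, D.nrm l _ (hc l hl)]
    norm_num
  have hZ1 : L (fun p => ‖Z p‖ ^ 2) = 1 := by
    have h3 := h1 (fun l p => ((‖c l p‖ ^ 2 : ℝ) : ℂ)) fun l hl =>
      D.sq l _ (hc l (mem_of_mem_erase hl))
    rw [prod_congr rfl fun l hl => hEc2 l (mem_of_mem_erase hl), prod_const_one] at h3
    have e1 : (fun p => ∏ l ∈ T.erase i, ((‖c l p‖ ^ 2 : ℝ) : ℂ)) =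
        fun p => ((‖Z p‖ ^ 2 : ℝ) : ℂ) := by
      funext p
      rw [hZn]
      push_cast
      rfl
    rw [e1] at h3
    exact Ec_re hL (by rw [h3]; norm_num)
  have hm' : Ec L (fun p => c i p * Z p) = m := by
    rw [← hm]
    congr 1
    funext p
    rw [hZ, ← mul_prod_erase T _ hi]
    ring
  have hW : Bd fun p => ‖c j p‖ ^ 2 := (hcb j hj).norm.sq
  have h3 := cs_abs hL (hcb i hi) hZb (D.nrm i _ (hc i hi)) hZ1 hm' hm0 hW
  have hb1 : Bd fun p => ‖c j p‖ ^ 2 * ‖c i p‖ ^ 2 := hW.mul (hcb i hi).norm.sq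
  have hb2 : Bd fun p => ‖c j p‖ ^ 2 * ‖Z p‖ ^ 2 := hW.mul hZb.norm.sq
  have e2 : (fun p => ‖c j p‖ ^ 2 * (‖c i p‖ ^ 2 - ‖Z p‖ ^ 2)) =
      fun p => ‖c j p‖ ^ 2 * ‖c i p‖ ^ 2 - ‖c j p‖ ^ 2 * ‖Z p‖ ^ 2 := by
    funext p
    ring
  rw [e2, lf_sub hL hb1 hb2] at h3
  have h4 : L (fun p => ‖c j p‖ ^ 2 * ‖c i p‖ ^ 2) = 1 := by
    have h5 := h2 (fun l p => ((‖c l p‖ ^ 2 : ℝ) : ℂ)) fun l hl => by
      rcases mem_insert.1 hl with h6 | h6
      · subst h6
        exact D.sq l _ (hc l hi)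
      · rw [mem_singleton] at h6
        subst h6
        exact D.sq l _ (hc l hj)
    rw [prod_pair hij, hEc2 i hi, hEc2 j hj, mul_one] at h5
    refine Ec_re hL ?_
    rw [show (fun p => ((‖c j p‖ ^ 2 * ‖c i p‖ ^ 2 : ℝ) : ℂ)) =
      fun p => ∏ l ∈ ({i, j} : Finset J), ((‖c l p‖ ^ 2 : ℝ) : ℂ) from funext fun p => by
        rw [prod_pair hij]
        push_cast
        ring, h5]
    norm_num
  have hji : j ∈ T.erase i := mem_erase.2 ⟨hij.symm, hj⟩
  have h5 : L (fun p => ‖c j p‖ ^ 2 * ‖Z p‖ ^ 2) = L (fun p => ‖c j p‖ ^ 4) := by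
    have h6 := h1 (fun l p => if l = j then ((‖c l p‖ ^ 4 : ℝ) : ℂ) else ((‖c l p‖ ^ 2 : ℝ) : ℂ))
      fun l hl => by
        by_cases hlj : l = j
        · simp only [if_pos hlj]
          exact D.qu l _ (hc l (mem_of_mem_erase hl))
        · simp only [if_neg hlj]
          exact D.sq l _ (hc l (mem_of_mem_erase hl))
    rw [← mul_prod_erase (T.erase i) _ hji] at h6
    have e3 : ∏ l ∈ (T.erase i).erase j, Ec L (fun p => if l = j then ((‖c l p‖ ^ 4 : ℝ) : ℂ)
        else ((‖c l p‖ ^ 2 : ℝ) : ℂ)) = 1 := by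
      refine prod_eq_one fun l hl => ?_
      simp only [if_neg (ne_of_mem_erase hl)]
      exact hEc2 l (mem_of_mem_erase (mem_of_mem_erase hl))
    rw [e3, mul_one] at h6
    simp only [if_true] at h6
    have e4 : (fun p => ∏ l ∈ T.erase i, if l = j then ((‖c l p‖ ^ 4 : ℝ) : ℂ)
        else ((‖c l p‖ ^ 2 : ℝ) : ℂ)) = fun p => ((‖c j p‖ ^ 2 * ‖Z p‖ ^ 2 : ℝ) : ℂ) := by
      funext p
      rw [hZn, ← mul_prod_erase (T.erase i) _ hji,
        ← mul_prod_erase (T.erase i) (fun l => ‖c l p‖ ^ 2) hji]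
      rw [if_pos rfl, prod_congr rfl fun l hl => if_neg (ne_of_mem_erase hl)]
      push_cast
      ring
    rw [e4, Ec_real hL, Ec_real hL] at h6
    exact_mod_cast h6
  rw [h4, h5] at h3
  linarith

/-- vanishing from the argument -/
theorem core_zero (hL : Lf L) (D : Dat L Ch Al) {T : Finset J} {i j : J} (hi : i ∈ T) (hj : j ∈ T)
    (hij : i ≠ j) (h1 : Ind L Al (T.erase i)) (h2 : Ind L Al {i, j})
    (hpf : ∀ c ∈ Ch j, L (fun p => ‖c p‖ ^ 4) = 1 → c = fun _ => 1) {c : J → P → ℂ}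
    (hc : ∀ l ∈ T, c l ∈ Ch l) (hcj : c j ≠ fun _ => 1) {w : P → ℂ} (hw : ∀ p, ‖w p‖ = 1)
    (hm : ∃ m : ℤ, Ec L (fun p => w p * ∏ l ∈ T, c l p) = m) :
    Ec L (fun p => w p * ∏ l ∈ T, c l p) = 0 := by
  obtain ⟨m, hm⟩ := hm
  by_cases hm0 : m = 0
  · rw [hm, hm0]
    norm_num
  · exact absurd (hpf _ (hc j hj) (core hL D hi hj hij h1 h2 hc hw hm hm0)) hcj

/-- **All subsets are independent.** -/
theorem all_ind (hL : Lf L) (D : Dat L Ch Al) (pf : J → Prop)
    (hpf : ∀ j, pf j → ∀ c ∈ Ch j, L (fun p => ‖c p‖ ^ 4) = 1 → c = fun _ => 1)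
    (hort : ∀ j, ∀ c ∈ Ch j, c ≠ (fun _ => 1) → Ec L c = 0)
    (hpair : ∀ i j, i ≠ j → ∀ c ∈ Ch i, ∀ d ∈ Ch j, c ≠ (fun _ => 1) → d ≠ (fun _ => 1) →
      Ec L (fun p => c p * d p) = 0)
    (htri : ∀ T : Finset J, 3 ≤ T.card → ∃ j ∈ T, pf j)
    (hint : ∀ c : J → P → ℂ, (∀ j, c j ∈ Ch j) →
      (∃ i j, i ≠ j ∧ c i ≠ (fun _ => 1) ∧ c j ≠ fun _ => 1) →
      ∃ m : ℤ, Ec L (fun p => ∏ j, c j p) = m) :
    ∀ T : Finset J, Ind L Al T := by
  classical
  have key : ∀ (n : ℕ) (T : Finset J), T.card = n → T.Nonempty → ∀ c : J → P → ℂ,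
      (∀ j ∈ T, c j ∈ Ch j ∧ c j ≠ fun _ => 1) → Ec L (fun p => ∏ j ∈ T, c j p) = 0 := by
    intro n
    induction n using Nat.strong_induction_on with
    | _ n ih =>
      intro T hTn hT c hc
      have hInd : ∀ T' : Finset J, T'.card < n → Ind L Al T' := fun T' hT' =>
        weyl hL D T' fun T'' hs hne c' hc' =>
          ih T''.card (lt_of_le_of_lt (card_le_card hs) hT') T'' rfl hne c' hc'
      rcases Nat.lt_or_ge n 3 with h3 | h3
      · have hn1 : 0 < n := hTn ▸ hT.card_pos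
        rcases Nat.lt_or_ge n 2 with h2 | h2
        · have h1 : T.card = 1 := by omega
          obtain ⟨j, hj⟩ := card_eq_one.1 h1
          subst hj
          simp only [prod_singleton]
          exact hort j _ (hc j (mem_singleton_self j)).1 (hc j (mem_singleton_self j)).2
        · have h1 : T.card = 2 := by omega
          obtain ⟨i, j, hij, hT2⟩ := card_eq_two.1 h1
          subst hT2
          have hi := hc i (mem_insert_self _ _)
          have hj := hc j (mem_insert_of_mem (mem_singleton_self j))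
          simp only [prod_pair hij]
          exact hpair i j hij _ hi.1 _ hj.1 hi.2 hj.2
      · obtain ⟨j, hj, hjp⟩ := htri T (by omega)
        obtain ⟨i, hi, hij⟩ : ∃ i ∈ T, i ≠ j := by
          by_contra hcon
          push Not at hcon
          have : T ⊆ {j} := fun l hl => mem_singleton.2 (hcon l hl)
          have := card_le_card this
          rw [card_singleton] at this
          omega
        set c' : J → P → ℂ := fun l => if l ∈ T then c l else fun _ => 1 with hc'
        have hc'T : ∀ l ∈ T, c' l = c l := fun l hl => by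
          rw [hc']
          simp only [if_pos hl]
        have h4 := core_zero hL D hi hj hij (hInd _ (by
          rw [card_erase_of_mem hi]
          omega)) (hInd _ (by
          rw [card_pair hij]
          omega)) (hpf j hjp) (c := c) (fun l hl => (hc l hl).1) (hc j hj).2
          (w := fun _ => 1) (fun p => by simp) (by
            obtain ⟨m, hm⟩ := hint c' (fun l => by
              rw [hc']
              simp only
              split_ifs with hl
              · exact (hc l hl).1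
              · exact D.one l) ⟨i, j, hij, by rw [hc'T i hi]; exact (hc i hi).2, by
              rw [hc'T j hj]; exact (hc j hj).2⟩
            refine ⟨m, ?_⟩
            rw [← hm]
            congr 1
            funext p
            rw [one_mul]
            refine (prod_congr rfl fun l hl => by rw [← hc'T l hl]).trans
              (prod_subset (subset_univ T) fun l _ hl => ?_)
            rw [hc']
            simp only [if_neg hl])
        simpa using h4
  intro T
  exact weyl hL D T fun T' _ hne c hc => key _ T' rfl hne c hc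

/-- **The twisted means vanish.** -/
theorem all_twist (hL : Lf L) (D : Dat L Ch Al) (hI : ∀ T : Finset J, Ind L Al T) (pf : J → Prop)
    (hpf : ∀ j, pf j → ∀ c ∈ Ch j, L (fun p => ‖c p‖ ^ 4) = 1 → c = fun _ => 1) {w : P → ℂ}
    (hw : ∀ p, ‖w p‖ = 1) (htri : ∀ T : Finset J, 3 ≤ T.card → ∃ j ∈ T, pf j)
    {c : J → P → ℂ} (hc : ∀ j, c j ∈ Ch j)
    (hpair : ∀ i j, i ≠ j → ¬ pf i → ¬ pf j → c i ≠ (fun _ => 1) → c j ≠ (fun _ => 1) →
      (∀ l, l ≠ i → l ≠ j → c l = fun _ => 1) → Ec L (fun p => w p * (c i p * c j p)) = 0)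
    (hne : ∃ i j, i ≠ j ∧ c i ≠ (fun _ => 1) ∧ c j ≠ fun _ => 1)
    (hint : ∃ m : ℤ, Ec L (fun p => w p * ∏ j, c j p) = m) :
    Ec L (fun p => w p * ∏ j, c j p) = 0 := by
  classical
  set T : Finset J := univ.filter fun j => c j ≠ fun _ => 1 with hT
  have e1 : (fun p => w p * ∏ j, c j p) = fun p => w p * ∏ j ∈ T, c j p := by
    funext p
    congr 1
    symm
    refine prod_subset (subset_univ T) fun l _ hl => ?_
    have h1 : c l = fun _ => 1 := by
      by_contra h2
      exact hl (mem_filter.2 ⟨mem_univ _, h2⟩)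
    rw [h1]
  have hcT : ∀ j ∈ T, c j ≠ fun _ => 1 := fun j hj => (mem_filter.1 hj).2
  obtain ⟨i₀, j₀, hij₀, hi₀, hj₀⟩ := hne
  have hi₀T : i₀ ∈ T := mem_filter.2 ⟨mem_univ _, hi₀⟩
  have hj₀T : j₀ ∈ T := mem_filter.2 ⟨mem_univ _, hj₀⟩
  by_cases hex : ∃ j ∈ T, pf j
  · obtain ⟨j, hj, hjp⟩ := hex
    obtain ⟨i, hi, hij⟩ : ∃ i ∈ T, i ≠ j := by
      by_cases h : i₀ = j
      · exact ⟨j₀, hj₀T, fun h' => hij₀ (h.trans h'.symm)⟩
      · exact ⟨i₀, hi₀T, h⟩
    rw [e1]
    refine core_zero hL D hi hj hij (hI _) (hI _) (hpf j hjp) (fun l _ => hc l) (hcT j hj) hw ?_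
    rw [← e1]
    exact hint
  · push Not at hex
    have hcard : T.card < 3 := by
      by_contra hcon
      push Not at hcon
      obtain ⟨j, hj, hjp⟩ := htri T hcon
      exact hex j hj hjp
    have h2 : 1 < T.card := one_lt_card.2 ⟨i₀, hi₀T, j₀, hj₀T, hij₀⟩
    rw [e1]
    obtain ⟨i, j, hij, hT2⟩ := card_eq_two.1 (show T.card = 2 by omega)
    have hi : i ∈ T := by rw [hT2]; exact mem_insert_self _ _
    have hj : j ∈ T := by rw [hT2]; exact mem_insert_of_mem (mem_singleton_self j)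
    rw [hT2]
    simp only [prod_pair hij]
    refine hpair i j hij (hex i hi) (hex j hj) (hcT i hi) (hcT j hj) fun l hli hlj => ?_
    by_contra h3
    have h4 : l ∈ T := mem_filter.2 ⟨mem_univ _, h3⟩
    rw [hT2] at h4
    rcases mem_insert.1 h4 with h5 | h5
    · exact hli h5
    · exact hlj (mem_singleton.1 h5)

end Pool.Agent.Q284.GR
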