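import Mathlib

/-! Tensor products of several matrices. -/

set_option autoImplicit false
set_option linter.unusedSectionVars false

namespace Pool.Agent.Q284.GR

open scoped Matrix Kronecker

variable {ι : Type} [Fintype ι] [DecidableEq ι] {n : ι → ℕ}

/-- the tensor product -/
def tens (A : ∀ i, Matrix (Fin (n i)) (Fin (n i)) ℂ) :
    Matrix (∀ i, Fin (n i)) (∀ i, Fin (n i)) ℂ := Matrix.of fun a b => ∏ i, A i (a i) (b i)

theorem tens_apply (A : ∀ i, Matrix (Fin (n i)) (Fin (n i)) ℂ) (a b : ∀ i, Fin (n i)) :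
    tens A a b = ∏ i, A i (a i) (b i) := rfl

theorem tens_mul (A B : ∀ i, Matrix (Fin (n i)) (Fin (n i)) ℂ) :
    tens A * tens B = tens fun i => A i * B i := by
  ext a b
  rw [Matrix.mul_apply, tens_apply]
  simp only [tens_apply, Matrix.mul_apply]
  rw [Finset.prod_univ_sum, Fintype.piFinset_univ]
  exact Finset.sum_congr rfl fun c _ => Finset.prod_mul_distrib.symm

theorem tens_one : tens (fun i => (1 : Matrix (Fin (n i)) (Fin (n i)) ℂ)) = 1 := by
  ext a b
  rw [tens_apply, Matrix.one_apply]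
  by_cases h : a = b
  · rw [if_pos h]
    subst h
    exact Finset.prod_eq_one fun i _ => Matrix.one_apply_eq _
  · rw [if_neg h]
    obtain ⟨i, hi⟩ := Function.ne_iff.1 h
    exact Finset.prod_eq_zero (Finset.mem_univ i) (Matrix.one_apply_ne hi)

theorem tens_conj (A : ∀ i, Matrix (Fin (n i)) (Fin (n i)) ℂ) :
    (tens A)ᴴ = tens fun i => (A i)ᴴ := by
  ext a b
  rw [Matrix.conjTranspose_apply, tens_apply, tens_apply, star_prod]
  exact Finset.prod_congr rfl fun i _ => rfl

theorem tens_trace (A : ∀ i, Matrix (Fin (n i)) (Fin (n i)) ℂ) :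
    (tens A).trace = ∏ i, (A i).trace := by
  unfold Matrix.trace
  rw [Finset.prod_univ_sum, Fintype.piFinset_univ]
  exact Finset.sum_congr rfl fun c _ => rfl

theorem tens_mem {A : ∀ i, Matrix (Fin (n i)) (Fin (n i)) ℂ}
    (h : ∀ i, A i ∈ Matrix.unitaryGroup (Fin (n i)) ℂ) :
    tens A ∈ Matrix.unitaryGroup (∀ i, Fin (n i)) ℂ := by
  rw [Matrix.mem_unitaryGroup_iff]
  change tens A * (tens A)ᴴ = 1
  rw [tens_conj, tens_mul, ← tens_one]
  congr 1
  funext i
  exact Matrix.mem_unitaryGroup_iff.1 (h i)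

end Pool.Agent.Q284.GR
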