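import Pool.Agent.Q284.GR.Ga
import Pool.Agent.Q284.GR.Te

/-! Several connected groups and a finite group over a number field. -/

set_option autoImplicit false
set_option linter.unusedSectionVars false

namespace Pool.Agent.Q284.GR

open Filter Topology ComplexConjugate MeasureTheory NumberField IsDedekindDomain
  Pool.Agent.Q284.JM Pool.Agent.TH553.RS Pool.Agent.TH553.ST Pool.Agent.W540.BE
  Pool.Agent.H341R2 Pool.Agent.Q284.CP
open scoped Kronecker

variable {K : Type} [Field K] [NumberField K] {ι : Type} [Fintype ι] [DecidableEq ι]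
  {G : ι → Type} [∀ i, Group (G i)] {Q : Type} [Group Q]
  {x : ∀ i, HeightOneSpectrum (𝓞 K) → G i} {z : HeightOneSpectrum (𝓞 K) → Q}

section

variable {n : ι → ℕ} {m : ℕ}

/-- the matrix -/
noncomputable def mt (x : ∀ i, HeightOneSpectrum (𝓞 K) → G i) (z : HeightOneSpectrum (𝓞 K) → Q)
    (π : ∀ i, G i →* Matrix.unitaryGroup (Fin (n i)) ℂ)
    (ρ : Q →* Matrix.unitaryGroup (Fin m) ℂ) (v : HeightOneSpectrum (𝓞 K)) :
    Matrix ((∀ i, Fin (n i)) × Fin m) ((∀ i, Fin (n i)) × Fin m) ℂ :=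
  tens (fun i => (π i (x i v) : Matrix (Fin (n i)) (Fin (n i)) ℂ)) ⊗ₖ
    (ρ (z v) : Matrix (Fin m) (Fin m) ℂ)

/-- the L-function -/
noncomputable def LT (x : ∀ i, HeightOneSpectrum (𝓞 K) → G i) (z : HeightOneSpectrum (𝓞 K) → Q)
    (π : ∀ i, G i →* Matrix.unitaryGroup (Fin (n i)) ℂ)
    (ρ : Q →* Matrix.unitaryGroup (Fin m) ℂ) (s : ℂ) : ℂ :=
  ∏' v, (Matrix.det (1 - (((nm K v : ℕ) : ℂ) ^ (-s)) • mt x z π ρ v))⁻¹

/-- a continuation -/
def Cn (x : ∀ i, HeightOneSpectrum (𝓞 K) → G i) (z : HeightOneSpectrum (𝓞 K) → Q)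
    (π : ∀ i, G i →* Matrix.unitaryGroup (Fin (n i)) ℂ)
    (ρ : Q →* Matrix.unitaryGroup (Fin m) ℂ) (τ : ℝ) (Λ : ℂ → ℂ) : Prop :=
  MeromorphicAt Λ (1 + τ * Complex.I) ∧
    ∀ᶠ s in 𝓝 ((1 : ℂ) + τ * Complex.I), (1 : ℝ) < s.re → Λ s = LT x z π ρ s

theorem exists_al (π : ∀ i, G i →* Matrix.unitaryGroup (Fin (n i)) ℂ)
    (ρ : Q →* Matrix.unitaryGroup (Fin m) ℂ) :
    ∃ α : HeightOneSpectrum (𝓞 K) → Fin (Fintype.card ((∀ i, Fin (n i)) × Fin m)) → ℂ,
      (∀ v j, ‖α v j‖ = 1) ∧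
      (∀ v, ∑ j, α v j = chi ρ (z v) * ∏ i, chi (π i) (x i v)) ∧ LT x z π ρ = EL α := by
  have h : ∀ v, mt x z π ρ v ∈ Matrix.unitaryGroup ((∀ i, Fin (n i)) × Fin m) ℂ :=
    fun v => Matrix.kronecker_mem_unitary (tens_mem fun i => (π i (x i v)).2) (ρ (z v)).2
  choose α h1 h2 h3 using fun v => exists_eig (h v)
  refine ⟨α, h1, fun v => ?_, ?_⟩
  · rw [h2]
    unfold mt
    rw [Matrix.trace_kronecker, tens_trace, mul_comm]
    rfl
  · funext s
    unfold LT EL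
    exact tprod_congr fun v => by rw [h3]

/-- orders are mean values -/
theorem int_LT {π : ∀ i, G i →* Matrix.unitaryGroup (Fin (n i)) ℂ}
    {ρ : Q →* Matrix.unitaryGroup (Fin m) ℂ} {τ : ℝ} {Λ : ℂ → ℂ} (h : Cn x z π ρ τ Λ) :
    ∃ k : ℤ, meromorphicOrderAt Λ (1 + τ * Complex.I) = k ∧
      ∀ U : Ultrafilter ℝ, (U : Filter ℝ) ≤ 𝓝[>] 0 →
        Ec (M (nm K) U) (fun v => wt K τ v * (chi ρ (z v) * ∏ i, chi (π i) (x i v))) =
          ((-k : ℤ) : ℂ) := by
  obtain ⟨α, h1, h2, h3⟩ := exists_al (x := x) (z := z) π ρ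
  unfold Cn at h
  rw [h3] at h
  obtain ⟨k, hk1, hk2⟩ := order_EL h1 (Λ := Λ) (τ := τ) h
  refine ⟨k, hk1, fun U hU => ?_⟩
  have h4 := hk2 U hU
  simp only [h2] at h4
  have e : ∀ v, wt K τ v * (chi ρ (z v) * ∏ i, chi (π i) (x i v)) =
      (chi ρ (z v) * ∏ i, chi (π i) (x i v)) * ((nm K v : ℕ) : ℂ) ^ (-(τ * Complex.I : ℂ)) :=
    fun v => mul_comm _ _
  simp only [e]
  unfold Ec
  apply Complex.ext
  · simp only
    rw [h4.1]
    simp
  · simp only
    rw [h4.2]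
    simp

/-- averages from orders -/
theorem avg_LT {π : ∀ i, G i →* Matrix.unitaryGroup (Fin (n i)) ℂ}
    {ρ : Q →* Matrix.unitaryGroup (Fin m) ℂ} (h : ∀ τ : ℝ, ∃ Λ, Cn x z π ρ τ Λ ∧
      meromorphicOrderAt Λ (1 + τ * Complex.I) = ((0 : ℤ) : WithTop ℤ)) :
    Tendsto (mn fun v => chi ρ (z v) * ∏ i, chi (π i) (x i v)) atTop (𝓝 0) := by
  obtain ⟨α, h1, h2, h3⟩ := exists_al (x := x) (z := z) π ρ
  have h4 := avg_EL h1 (m := 0) fun τ => by
    obtain ⟨Λ, h5, h6⟩ := h τ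
    unfold Cn at h5
    rw [h3] at h5
    refine ⟨Λ, h5, ?_⟩
    rw [h6]
    split_ifs <;> simp
  simp only [h2] at h4
  simpa using h4

end

section

variable [∀ i, TopologicalSpace (G i)] [∀ i, IsTopologicalGroup (G i)] [∀ i, CompactSpace (G i)]
  [∀ i, T2Space (G i)] [∀ i, MeasurableSpace (G i)] [∀ i, BorelSpace (G i)]
  {μ : ∀ i, Measure (G i)} [∀ i, IsProbabilityMeasure (μ i)] [∀ i, (μ i).IsHaarMeasure]
  [TopologicalSpace Q] [IsTopologicalGroup Q] [CompactSpace Q] [T2Space Q] [MeasurableSpace Q]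
  [BorelSpace Q] {ν : Measure Q} [IsProbabilityMeasure ν] [ν.IsHaarMeasure]

/-- the characters -/
def Ch (x : ∀ i, HeightOneSpectrum (𝓞 K) → G i) (z : HeightOneSpectrum (𝓞 K) → Q) :
    Option ι → Set (HeightOneSpectrum (𝓞 K) → ℂ)
  | none => CG z
  | some i => CG (x i)

/-- the class functions -/
def Al (x : ∀ i, HeightOneSpectrum (𝓞 K) → G i) (z : HeightOneSpectrum (𝓞 K) → Q) :
    Option ι → Set (HeightOneSpectrum (𝓞 K) → ℂ)
  | none => AG z
  | some i => AG (x i)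

/-- the laws -/
def Lws (L : (HeightOneSpectrum (𝓞 K) → ℝ) → ℝ) (x : ∀ i, HeightOneSpectrum (𝓞 K) → G i)
    (z : HeightOneSpectrum (𝓞 K) → Q) (μ : ∀ i, Measure (G i)) (ν : Measure Q) : Prop :=
  LW L z ν ∧ ∀ i, LW L (x i) (μ i)

variable {L : (HeightOneSpectrum (𝓞 K) → ℝ) → ℝ}

theorem dat (hl : Lws L x z μ ν) : Dat L (Ch x z) (Al x z) where
  one := by rintro (_ | i); exacts [one_CG z, one_CG (x i)]
  sub := by rintro (_ | i); exacts [sub_CG z, sub_CG (x i)]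
  bz := by rintro (_ | i) f hf; exacts [bz_AG hf, bz_AG hf]
  sq := by rintro (_ | i) c hc; exacts [sq_CG hc 2, sq_CG hc 2]
  qu := by rintro (_ | i) c hc; exacts [sq_CG hc 4, sq_CG hc 4]
  nrm := by rintro (_ | i) c hc; exacts [nrm_CG hl.1 hc, nrm_CG (hl.2 i) hc]
  dns := by rintro (_ | i) f hf ε hε; exacts [dns_AG hf hε, dns_AG hf hε]

theorem ort (hl : Lws L x z μ ν) (j : Option ι) (c : HeightOneSpectrum (𝓞 K) → ℂ)
    (hc : c ∈ Ch x z j) (hne : c ≠ fun _ => 1) : Ec L c = 0 := by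
  rcases j with _ | i
  exacts [ort_CG hl.1 hc hne, ort_CG (hl.2 i) hc hne]

/-- representations behind the characters -/
structure Rp (n : ι → ℕ) (π : ∀ i, G i →* Matrix.unitaryGroup (Fin (n i)) ℂ) (m : ℕ)
    (ρ : Q →* Matrix.unitaryGroup (Fin m) ℂ) : Prop where
  pn : ∀ i, n i ≠ 0
  pc : ∀ i, Continuous (π i)
  ps : ∀ i, Schur (π i)
  rn : m ≠ 0
  rc : Continuous ρ
  rs : Schur ρ

/-- at least two are nontrivial -/
def Mx {n : ι → ℕ} (π : ∀ i, G i →* Matrix.unitaryGroup (Fin (n i)) ℂ) {m : ℕ}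
    (ρ : Q →* Matrix.unitaryGroup (Fin m) ℂ) : Prop :=
  ∃ i, (∃ g, π i g ≠ 1) ∧ ((∃ j, j ≠ i ∧ ∃ g, π j g ≠ 1) ∨ ∃ q, ρ q ≠ 1)

theorem triv_one {P H : Type} [Group H] [TopologicalSpace H] [IsTopologicalGroup H]
    [CompactSpace H] {y : P → H} {n : ℕ} {π : H →* Matrix.unitaryGroup (Fin n) ℂ} (hn : n ≠ 0)
    (hc : Continuous π) (hs : Schur π) (h : ∀ g, π g = 1) : (fun p => chi π (y p)) = fun _ => 1 := by
  let _ : MeasurableSpace H := borel H
  have _ : BorelSpace H := ⟨rfl⟩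
  set ν : Measure H := Measure.haarMeasure ⊤ with hν
  have hν1 : IsProbabilityMeasure ν := ⟨by
    rw [hν]
    exact Measure.haarMeasure_self⟩
  have h1 := int_sq (μ := ν) hc hs hn
  have h2 : ∀ g, ‖chi π g‖ ^ 2 = ‖chi π 1‖ ^ 2 := fun g => by
    rw [chi_triv h, chi_triv h]
  simp only [h2] at h1
  have h3 : ‖chi π 1‖ ^ 2 = 1 := by simpa using h1
  have h4 := dim_one hn h3
  subst h4
  funext p
  rw [chi_triv h]
  norm_num

theorem triv_of {P H : Type} [Group H] [TopologicalSpace H] [IsTopologicalGroup H]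
    [CompactSpace H] [MeasurableSpace H] [BorelSpace H] {μ : Measure H} [IsProbabilityMeasure μ]
    [μ.IsHaarMeasure] {L : (P → ℝ) → ℝ} (hL : Lf L) {y : P → H} (hy : LW L y μ) {n : ℕ}
    {π : H →* Matrix.unitaryGroup (Fin n) ℂ} (hc : Continuous π) (hs : Schur π)
    (h : (fun p => chi π (y p)) = fun _ => 1) (g : H) : π g = 1 := by
  by_contra hcon
  have h1 := Ec_law hy (cont_chi hc) fun g h => chi_cls π g h
  rw [h, Ec_const hL, int_chi hc hs ⟨g, hcon⟩] at h1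
  exact one_ne_zero h1

/-- the choice of the representations -/
theorem exists_rp (hL : Lf L) (hl : Lws L x z μ ν) {c : Option ι → HeightOneSpectrum (𝓞 K) → ℂ}
    (hc : ∀ j, c j ∈ Ch x z j) : ∃ (n : ι → ℕ) (π : ∀ i, G i →* Matrix.unitaryGroup (Fin (n i)) ℂ)
      (m : ℕ) (ρ : Q →* Matrix.unitaryGroup (Fin m) ℂ), Rp n π m ρ ∧
      (∀ v, ∏ j, c j v = chi ρ (z v) * ∏ i, chi (π i) (x i v)) ∧
      (∀ i, (c (some i) ≠ fun _ => 1) ↔ ∃ g, π i g ≠ 1) ∧ ((c none ≠ fun _ => 1) ↔ ∃ g, ρ g ≠ 1) ∧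
      ∀ i, c (some i) = fun v => chi (π i) (x i v) := by
  choose n π hπ1 hπ2 hπ3 hπ4 using fun i => hc (some i)
  obtain ⟨m, ρ, hρ1, hρ2, hρ3, hρ4⟩ := hc none
  refine ⟨n, π, m, ρ, ⟨hπ1, hπ2, hπ3, hρ1, hρ2, hρ3⟩, fun v => ?_, fun i => ⟨fun h => ?_,
    fun h h' => ?_⟩, ⟨fun h => ?_, fun h h' => ?_⟩, hπ4⟩
  · rw [Fintype.prod_option, hρ4]
    congr 1
    exact Finset.prod_congr rfl fun i _ => by rw [hπ4 i]
  · by_contra hcon
    push Not at hcon
    exact h (by rw [hπ4 i]; exact triv_one (hπ1 i) (hπ2 i) (hπ3 i) hcon)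
  · obtain ⟨g, hg⟩ := h
    rw [hπ4 i] at h'
    exact hg (triv_of hL (hl.2 i) (hπ2 i) (hπ3 i) h' g)
  · by_contra hcon
    push Not at hcon
    exact h (by rw [hρ4]; exact triv_one hρ1 hρ2 hρ3 hcon)
  · obtain ⟨g, hg⟩ := h
    rw [hρ4] at h'
    exact hg (triv_of hL hl.1 hρ2 hρ3 h' g)

/-- two nontrivial characters give a mixed system -/
theorem mixed_of {n : ι → ℕ} {π : ∀ i, G i →* Matrix.unitaryGroup (Fin (n i)) ℂ} {m : ℕ}
    {ρ : Q →* Matrix.unitaryGroup (Fin m) ℂ} {c : Option ι → HeightOneSpectrum (𝓞 K) → ℂ}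
    (h1 : ∀ i, (c (some i) ≠ fun _ => 1) ↔ ∃ g, π i g ≠ 1)
    (h2 : (c none ≠ fun _ => 1) ↔ ∃ g, ρ g ≠ 1)
    (h : ∃ i j, i ≠ j ∧ c i ≠ (fun _ => 1) ∧ c j ≠ fun _ => 1) : Mx π ρ := by
  obtain ⟨i, j, hij, hi, hj⟩ := h
  rcases i with _ | i
  · rcases j with _ | j
    · exact absurd rfl hij
    · exact ⟨j, (h1 j).1 hj, Or.inr (h2.1 hi)⟩
  · rcases j with _ | j
    · exact ⟨i, (h1 i).1 hi, Or.inr (h2.1 hj)⟩
    · exact ⟨i, (h1 i).1 hi, Or.inl ⟨j, fun h => hij (by rw [h]), (h1 j).1 hj⟩⟩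

/-- the pairs -/
def Pr (x : ∀ i, HeightOneSpectrum (𝓞 K) → G i) (z : HeightOneSpectrum (𝓞 K) → Q)
    (μ : ∀ i, Measure (G i)) : Prop :=
  ∀ (n : ι → ℕ) (π : ∀ i, G i →* Matrix.unitaryGroup (Fin (n i)) ℂ) (m : ℕ)
    (ρ : Q →* Matrix.unitaryGroup (Fin m) ℂ), Rp n π m ρ → ∀ i j, i ≠ j →
    (∃ g, π i g ≠ 1) → (∃ g, π j g ≠ 1) → (∀ l, l ≠ i → l ≠ j → ∀ g, π l g = 1) →
    (∀ q, ρ q = 1) → (∀ k : ℕ, ∫ g, (‖chi (π i) g‖ ^ 2) ^ k ∂(μ i) =
      ∫ g, (‖chi (π j) g‖ ^ 2) ^ k ∂(μ j)) →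
    ∀ Λ, Cn x z π ρ 0 Λ → meromorphicOrderAt Λ 1 = ((0 : ℤ) : WithTop ℤ)

/-- the perfect indices -/
def pf (G : ι → Type) [∀ i, Group (G i)] [∀ i, TopologicalSpace (G i)] : Option ι → Prop
  | none => False
  | some i => Perf (G i)

theorem tri (h : ∀ i j : ι, i ≠ j → Perf (G i) ∨ Perf (G j)) (T : Finset (Option ι))
    (hT : 3 ≤ T.card) : ∃ j ∈ T, pf G j := by
  have h1 : 1 < (T.erase none).card := by
    have := Finset.pred_card_le_card_erase (s := T) (a := none)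
    omega
  obtain ⟨a, ha, b, hb, hab⟩ := Finset.one_lt_card.1 h1
  rcases a with _ | i
  · exact absurd rfl (Finset.ne_of_mem_erase ha)
  · rcases b with _ | j
    · exact absurd rfl (Finset.ne_of_mem_erase hb)
    · rcases h i j fun h' => hab (by rw [h']) with h2 | h2
      · exact ⟨some i, Finset.mem_of_mem_erase ha, h2⟩
      · exact ⟨some j, Finset.mem_of_mem_erase hb, h2⟩

theorem pf_one (hl : Lws L x z μ ν) (j : Option ι) (hj : pf G j)
    (c : HeightOneSpectrum (𝓞 K) → ℂ) (hc : c ∈ Ch x z j) (h : L (fun p => ‖c p‖ ^ 4) = 1) :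
    c = fun _ => 1 := by
  rcases j with _ | i
  · exact absurd hj id
  · exact pf_CG hj (hl.2 i) hc h

theorem Ec_one_mul {P : Type} {L : (P → ℝ) → ℝ} {w f : P → ℂ} (h : ∀ p, w p = 1) :
    Ec L (fun p => w p * f p) = Ec L f := by
  congr 1
  funext p
  rw [h, one_mul]

variable [Finite Q] [∀ i, ConnectedSpace (G i)]

/-- the pair of a connected group and the finite group -/
theorem gal_pair (hx : ∀ i, Law (x i) (μ i)) (hz : Law z ν) {U : Ultrafilter ℝ}
    (hU : (U : Filter ℝ) ≤ 𝓝[>] 0) {i : ι} {c d : HeightOneSpectrum (𝓞 K) → ℂ}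
    (hc : c ∈ CG (x i)) (hd : d ∈ CG z) (hcn : c ≠ fun _ => 1) (τ : ℝ) {m : ℤ}
    (hm : Ec (M (nm K) U) (fun v => wt K τ v * (c v * d v)) = m) : m = 0 := by
  classical
  have hd2 := nrm_CG (lw_M hz hU) hd
  obtain ⟨k, ρ, hk, hρ, hs, rfl⟩ := hd
  let _ : Fintype Q := Fintype.ofFinite Q
  refine fin_pair (lf_M (sysF K) hU) (lw_M (hx i) hU) hc hcn
    (V := Finset.univ.image (chi ρ)) (fun v => Finset.mem_image_of_mem _ (Finset.mem_univ _)) hd2
    (norm_wt τ) (Or.inr fun l _ F hF hcl h0 => ?_) hm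
  simp only [wt_pow]
  exact Ec_wt (hx i) hU hF hcl h0 _

theorem prod_two {J : Type} [Fintype J] [DecidableEq J] {P : Type} {c : J → P → ℂ} {i j : J}
    (hij : i ≠ j) (h : ∀ l, l ≠ i → l ≠ j → c l = fun _ => 1) (p : P) :
    ∏ l, c l p = c i p * c j p := by
  rw [← Finset.prod_pair (f := fun l => c l p) hij]
  symm
  refine Finset.prod_subset (Finset.subset_univ _) fun l _ hl => ?_
  have h1 : l ≠ i := fun h' => hl (by rw [h']; exact Finset.mem_insert_self _ _)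
  have h2 : l ≠ j := fun h' => hl (by
    rw [h']
    exact Finset.mem_insert_of_mem (Finset.mem_singleton_self _))
  rw [h l h1 h2]

/-- **The independence in the sense of Dirichlet.** -/
theorem ind_all (hx : ∀ i, Law (x i) (μ i)) (hz : Law z ν)
    (hP : ∀ i j : ι, i ≠ j → Perf (G i) ∨ Perf (G j))
    (hc0 : ∀ (n : ι → ℕ) (π : ∀ i, G i →* Matrix.unitaryGroup (Fin (n i)) ℂ) (m : ℕ)
      (ρ : Q →* Matrix.unitaryGroup (Fin m) ℂ), Rp n π m ρ → Mx π ρ → ∃ Λ, Cn x z π ρ 0 Λ)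
    (ha : Pr x z μ) {U : Ultrafilter ℝ} (hU : (U : Filter ℝ) ≤ 𝓝[>] 0) :
    ∀ T : Finset (Option ι), Ind (M (nm K) U) (Al x z) T := by
  classical
  have hL := lf_M (sysF K) hU
  have hl : Lws (M (nm K) U) x z μ ν := ⟨lw_M hz hU, fun i => lw_M (hx i) hU⟩
  have hint : ∀ c : Option ι → HeightOneSpectrum (𝓞 K) → ℂ, (∀ j, c j ∈ Ch x z j) →
      (∃ i j, i ≠ j ∧ c i ≠ (fun _ => 1) ∧ c j ≠ fun _ => 1) →
      ∃ m : ℤ, Ec (M (nm K) U) (fun p => ∏ j, c j p) = m := by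
    intro c hc hne
    obtain ⟨n, π, m, ρ, hR, he, h1, h2, -⟩ := exists_rp hL hl hc
    obtain ⟨Λ, hΛ⟩ := hc0 n π m ρ hR (mixed_of h1 h2 hne)
    obtain ⟨k, -, hk⟩ := int_LT hΛ
    refine ⟨-k, ?_⟩
    rw [← hk U hU]
    simp only [he]
    exact (Ec_one_mul wt_zero).symm
  have hgal : ∀ (i : ι) (c d : HeightOneSpectrum (𝓞 K) → ℂ), c ∈ CG (x i) → d ∈ CG z →
      c ≠ (fun _ => 1) → d ≠ (fun _ => 1) → Ec (M (nm K) U) (fun p => c p * d p) = 0 := by
    intro i c d hc hd hcn hdn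
    set e : Option ι → HeightOneSpectrum (𝓞 K) → ℂ := fun l =>
      if l = some i then c else if l = none then d else fun _ => 1 with he
    have he1 : e (some i) = c := by rw [he]; simp
    have he2 : e none = d := by rw [he]; simp
    have he3 : ∀ l, l ≠ some i → l ≠ none → e l = fun _ => 1 := fun l h1 h2 => by
      rw [he]
      simp [h1, h2]
    obtain ⟨m, hm⟩ := hint e (fun l => by
      by_cases h1 : l = some i
      · subst h1
        rw [he1]
        exact hc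
      · by_cases h2 : l = none
        · subst h2
          rw [he2]
          exact hd
        · rw [he3 l h1 h2]
          exact (dat hl).one l) ⟨some i, none, by simp, by rw [he1]; exact hcn,
            by rw [he2]; exact hdn⟩
    have e1 : (fun p => ∏ l, e l p) = fun p => c p * d p := by
      funext p
      rw [prod_two (c := e) (i := some i) (j := none) (by simp) he3, he1, he2]
    rw [e1] at hm
    have h1 : m = 0 := gal_pair hx hz hU (i := i) hc hd hcn 0 (m := m) (by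
      rw [Ec_one_mul wt_zero]
      exact hm)
    rw [hm, h1]
    norm_num
  refine all_ind hL (dat hl) (pf G) (pf_one hl) (ort hl) ?_ (tri hP) hint
  intro i j hij c hc d hd hcn hdn
  rcases i with _ | i
  · rcases j with _ | j
    · exact absurd rfl hij
    · have h1 := hgal j d c hd hc hdn hcn
      rw [← h1]
      congr 1
      funext p
      ring
  · rcases j with _ | j
    · exact hgal i c d hc hd hcn hdn
    · have hij' : i ≠ j := fun h => hij (by rw [h])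
      set e : Option ι → HeightOneSpectrum (𝓞 K) → ℂ := fun l =>
        if l = some i then c else if l = some j then d else fun _ => 1 with he
      have he1 : e (some i) = c := by rw [he]; simp
      have he2 : e (some j) = d := by
        rw [he]
        simp only
        rw [if_neg (Ne.symm hij), if_pos trivial]
      have he3 : ∀ l, l ≠ some i → l ≠ some j → e l = fun _ => 1 := fun l h1 h2 => by
        rw [he]
        simp [h1, h2]
      have heC : ∀ l, e l ∈ Ch x z l := fun l => by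
        by_cases h1 : l = some i
        · subst h1
          rw [he1]
          exact hc
        · by_cases h2 : l = some j
          · subst h2
            rw [he2]
            exact hd
          · rw [he3 l h1 h2]
            exact (dat hl).one l
      have hne : ∃ i j, i ≠ j ∧ e i ≠ (fun _ => 1) ∧ e j ≠ fun _ => 1 :=
        ⟨some i, some j, hij, by rw [he1]; exact hcn, by rw [he2]; exact hdn⟩
      obtain ⟨n, π, m, ρ, hR, heq, h1, h2, h3⟩ := exists_rp hL hl heC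
      have hmx := mixed_of h1 h2 hne
      obtain ⟨Λ, hΛ⟩ := hc0 n π m ρ hR hmx
      obtain ⟨k, hk0, hk⟩ := int_LT hΛ
      have h4 := hk U hU
      rw [Ec_one_mul wt_zero] at h4
      have e1 : (fun v => chi ρ (z v) * ∏ i, chi (π i) (x i v)) = fun p => c p * d p := by
        funext v
        rw [← heq, prod_two (c := e) hij he3, he1, he2]
      rw [e1] at h4
      by_cases hk1 : k = 0
      · rw [h4, hk1]
        norm_num
      · exfalso
        have hmk : (-k : ℤ) ≠ 0 := neg_ne_zero.2 hk1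
        have h5 : ∀ l : ℕ, ∫ g, (‖chi (π i) g‖ ^ 2) ^ l ∂(μ i) =
            ∫ g, (‖chi (π j) g‖ ^ 2) ^ l ∂(μ j) := by
          intro l
          have h6 := same_mom hL (bz_AG (sub_CG _ hc)) (bz_AG (sub_CG _ hd))
            (nrm_CG (hl.2 i) hc) (nrm_CG (hl.2 j) hd) h4 hmk l
          have h7 : c = fun v => chi (π i) (x i v) := by rw [← he1]; exact h3 i
          have h8 : d = fun v => chi (π j) (x j v) := by rw [← he2]; exact h3 j
          rw [h7, h8] at h6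
          rw [hl.2 i (fun g => (‖chi (π i) g‖ ^ 2) ^ l) (cont_sq (hR.pc i) l)
            (fun g h => cls_sq l g h), hl.2 j (fun g => (‖chi (π j) g‖ ^ 2) ^ l)
            (cont_sq (hR.pc j) l) (fun g h => cls_sq l g h)] at h6
          exact h6
        have h6 := ha n π m ρ hR i j hij' ((h1 i).1 (by rw [he1]; exact hcn))
          ((h1 j).1 (by rw [he2]; exact hdn)) (fun l hli hlj g => by
            by_contra hcon
            refine (h1 l).2 ⟨g, hcon⟩ (he3 _ (fun h => hli ?_) fun h => hlj ?_)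
            · exact Option.some_injective _ h
            · exact Option.some_injective _ h) (fun q => by
            by_contra hcon
            exact h2.2 ⟨q, hcon⟩ (he3 _ (by simp) (by simp))) h5 Λ hΛ
        have e2 : (1 : ℂ) + ((0 : ℝ) : ℂ) * Complex.I = 1 := by simp
        rw [e2, h6] at hk0
        exact hk1 (by exact_mod_cast hk0.symm)

end

end Pool.Agent.Q284.GR
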