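import Pool.Agent.Q284.GR.Gp

/-! A connected group and a function with finitely many values. -/

set_option autoImplicit false
set_option linter.unusedSectionVars false

namespace Pool.Agent.Q284.GR

open Filter Topology ComplexConjugate MeasureTheory Pool.Agent.Q284.JM Pool.Agent.TH553.RS
  Pool.Agent.TH553.ST

section

variable {P : Type} {L : (P → ℝ) → ℝ}

theorem Ec_conj (hL : Lf L) {f : P → ℂ} (hf : Bz f) :
    Ec L (fun p => conj (f p)) = conj (Ec L f) := by
  unfold Ec
  apply Complex.ext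
  · simp
  · simp only [Complex.conj_im]
    have h1 := hL.smul (-1) _ hf.im
    simpa using h1

/-- a function with absolute value one in a finite set -/
theorem no_roots (hL : Lf L) {u : P → ℂ} (hu : ∀ p, ‖u p‖ = 1)
    (hpow : ∀ l : ℕ, l ≠ 0 → Ec L (fun p => u p ^ l) = 0) {e : P → ℂ} {V : Finset ℂ}
    (hV : ∀ p, e p ∈ V) (h : L (fun p => ‖u p - e p‖ ^ 2) = 0) : False := by
  classical
  have hub : Bz u := ⟨1, fun p => (hu p).le⟩
  have heb : Bz e := by
    refine ⟨∑ v ∈ V, ‖v‖, fun p => ?_⟩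
    exact Finset.single_le_sum (f := fun v : ℂ => ‖v‖) (fun v _ => norm_nonneg v) (hV p)
  set Q : Polynomial ℂ := ∏ v ∈ V, (Polynomial.X - Polynomial.C v) with hQ
  have hQm : Q.Monic := Polynomial.monic_prod_of_monic _ _ fun v _ => Polynomial.monic_X_sub_C v
  set N := Q.natDegree with hN
  have hWb : ∀ v₀ : ℂ, Bz fun p => ∏ v ∈ V.erase v₀, (u p - v) := fun v₀ =>
    Bz.prod _ fun v _ => hub.sub (Bz.const v)
  choose B hB using hWb
  set W : P → ℂ := fun p => ∏ v ∈ V.erase (e p), (u p - v) with hW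
  have hWbd : Bz W := by
    refine ⟨∑ v ∈ V, |B v|, fun p => ?_⟩
    refine ((hB (e p) p).trans (le_abs_self _)).trans ?_
    exact Finset.single_le_sum (f := fun v : ℂ => |B v|) (fun v _ => abs_nonneg _) (hV p)
  have h1 : Ec L (fun p => (conj (u p) ^ N * W p) * (u p - e p)) = 0 :=
    Ec_null hL (hub.sub heb) ((hub.conj.pow N).mul hWbd) h
  have hcu : ∀ p, conj (u p) * u p = 1 := by
    intro p
    rw [mul_comm, Complex.mul_conj, Complex.normSq_eq_norm_sq, hu]
    norm_num
  have h2 : ∀ p, (conj (u p) ^ N * W p) * (u p - e p) =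
      ∑ k ∈ Finset.range (N + 1), Q.coeff k * conj (u p) ^ (N - k) := by
    intro p
    have h3 : W p * (u p - e p) = Q.eval (u p) := by
      rw [hQ, Polynomial.eval_prod]
      simp only [Polynomial.eval_sub, Polynomial.eval_X, Polynomial.eval_C]
      rw [hW, mul_comm]
      exact Finset.mul_prod_erase V (fun v => u p - v) (hV p)
    rw [mul_assoc, h3, Polynomial.eval_eq_sum_range, Finset.mul_sum]
    refine Finset.sum_congr rfl fun k hk => ?_
    have hk' : k ≤ N := Nat.lt_succ_iff.1 (Finset.mem_range.1 hk)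
    obtain ⟨l, hl⟩ := Nat.exists_eq_add_of_le hk'
    have h4 : N - k = l := by omega
    rw [h4, hl, pow_add]
    have h5 : conj (u p) ^ k * u p ^ k = 1 := by rw [← mul_pow, hcu, one_pow]
    linear_combination (conj (u p) ^ l * Q.coeff k) * h5
  simp only [h2] at h1
  rw [Ec_sum hL _ fun k _ => (Bz.const _).mul (hub.conj.pow _), Finset.sum_range_succ] at h1
  have h6 : ∑ k ∈ Finset.range N, Ec L (fun p => Q.coeff k * conj (u p) ^ (N - k)) = 0 := by
    refine Finset.sum_eq_zero fun k hk => ?_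
    rw [Ec_smul hL _ (hub.conj.pow _)]
    have h7 : Ec L (fun p => conj (u p) ^ (N - k)) = 0 := by
      have h8 : (fun p => conj (u p) ^ (N - k)) = fun p => conj (u p ^ (N - k)) := by
        funext p
        rw [map_pow]
      have h9 := Finset.mem_range.1 hk
      rw [h8, Ec_conj hL (hub.pow _), hpow _ (by omega), map_zero]
    rw [h7, mul_zero]
  rw [h6, zero_add, Nat.sub_self] at h1
  simp only [pow_zero, mul_one] at h1
  rw [Ec_const hL] at h1
  have h10 : Q.coeff N = 1 := hQm.coeff_natDegree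
  rw [h10] at h1
  exact one_ne_zero h1

end

section

variable {P : Type} {H : Type} [Group H] [TopologicalSpace H] [IsTopologicalGroup H]
  [CompactSpace H] [MeasurableSpace H] [BorelSpace H] {μ : Measure H}
  [IsProbabilityMeasure μ] [μ.IsHaarMeasure] {L : (P → ℝ) → ℝ} {y : P → H}

/-- continuous functions with finitely many values on a connected space are constant -/
theorem const_of_fin [ConnectedSpace H] {E : Type} [TopologicalSpace E] [T1Space E] {f : H → E}
    (hf : Continuous f) (h : (Set.range f).Finite) (g g' : H) : f g = f g' := by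
  have h1 : (Set.range f).Subsingleton := by
    have h4 : IsPreconnected (Set.range f) := isPreconnected_range hf
    by_contra hcon
    rw [Set.not_subsingleton_iff] at hcon
    exact h4.infinite_of_nontrivial hcon h
  exact h1 (Set.mem_range_self g) (Set.mem_range_self g')

/-- the powers of a nontrivial character of a connected group -/
theorem int_pow [ConnectedSpace H] {π : H →* Matrix.unitaryGroup (Fin 1) ℂ} (hπ : Continuous π)
    (hne : ∃ g, chi π g ≠ 1) {l : ℕ} (hl : l ≠ 0) : ∫ g, chi π g ^ l ∂μ = 0 := by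
  have h1 : ∃ g₀, chi π g₀ ^ l ≠ 1 := by
    by_contra hcon
    push Not at hcon
    obtain ⟨g₀, hg₀⟩ := hne
    have h2 : (Set.range (chi π)).Finite := by
      refine ((Polynomial.nthRoots l (1 : ℂ)).toFinset.finite_toSet).subset ?_
      rintro _ ⟨g, rfl⟩
      rw [Finset.mem_coe, Multiset.mem_toFinset, Polynomial.mem_nthRoots (Nat.pos_of_ne_zero hl)]
      exact hcon g
    have h3 := const_of_fin (cont_chi hπ) h2 g₀ 1
    rw [chi_one] at h3
    exact hg₀ (by rw [h3]; norm_num)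
  obtain ⟨g₀, hg₀⟩ := h1
  have h4 : ∫ g, chi π (g₀ * g) ^ l ∂μ = ∫ g, chi π g ^ l ∂μ :=
    integral_mul_left_eq_self (fun g => chi π g ^ l) g₀
  simp only [chi_mul_one, mul_pow] at h4
  rw [integral_const_mul] at h4
  have h5 : (chi π g₀ ^ l - 1) * ∫ g, chi π g ^ l ∂μ = 0 := by linear_combination h4
  exact (mul_eq_zero.1 h5).resolve_left (sub_ne_zero.2 hg₀)

/-- **A connected group and a function with finitely many values.** -/
theorem fin_pair [ConnectedSpace H] (hL : Lf L) (h : LW L y μ) {c d w : P → ℂ} (hc : c ∈ CG y)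
    (hne : c ≠ fun _ => 1) {V : Finset ℂ} (hV : ∀ p, d p ∈ V) (hd2 : L (fun p => ‖d p‖ ^ 2) = 1)
    (hw : ∀ p, ‖w p‖ = 1)
    (hpow : (∀ p, w p = 1) ∨ ∀ l : ℕ, l ≠ 0 → ∀ F : H → ℂ, Continuous F →
      (∀ g h, F (h * g * h⁻¹) = F g) → ∫ g, F g ∂μ = 0 → Ec L (fun p => w p ^ l * F (y p)) = 0)
    {m : ℤ}
    (hm : Ec L (fun p => w p * (c p * d p)) = m) : m = 0 := by
  classical
  by_contra hm0
  have hc2 := nrm_CG h hc
  have hcb : Bz c := bz_AG (sub_CG y hc)
  obtain ⟨n, π, hn, hπ, hs, hcπ⟩ := hc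
  have hwb : Bz w := ⟨1, fun p => (hw p).le⟩
  have hdb : Bz d := by
    refine ⟨∑ v ∈ V, ‖v‖, fun p => ?_⟩
    exact Finset.single_le_sum (f := fun v : ℂ => ‖v‖) (fun v _ => norm_nonneg v) (hV p)
  set Y : P → ℂ := fun p => w p * c p with hY
  have hYb : Bz Y := hwb.mul hcb
  have hYn : ∀ p, ‖Y p‖ = ‖c p‖ := fun p => by rw [hY]; simp only; rw [norm_mul, hw, one_mul]
  have hY2 : L (fun p => ‖Y p‖ ^ 2) = 1 := by
    simp only [hYn]
    exact hc2
  have hm' : Ec L (fun p => Y p * d p) = m := by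
    rw [← hm]
    congr 1
    funext p
    rw [hY]
    ring
  have key := cs_key hL hYb hdb hY2 hd2 hm' hm0
  -- the absolute values
  set D : P → ℝ := fun p => ‖Y p‖ ^ 2 - ‖d p‖ ^ 2 with hD
  have hDb : Bd D := hYb.norm.sq.sub hdb.norm.sq
  have h1 : L (fun p => |D p|) = 0 := by
    have h2 := cs_abs hL hYb hdb hY2 hd2 hm' hm0 (W := fun p => if 0 ≤ D p then 1 else -1)
      ⟨1, fun p => by beta_reduce; split_ifs <;> simp⟩
    rw [← h2]
    congr 1
    funext p
    by_cases h3 : 0 ≤ D p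
    · rw [if_pos h3, abs_of_nonneg h3, one_mul]
    · rw [if_neg h3, abs_of_neg (not_le.1 h3)]
      simp only [hD]
      ring
  set V' : Finset ℝ := insert 0 (V.image fun z : ℂ => ‖z‖ ^ 2) with hV'
  have hV'ne : (V' : Set ℝ).Nonempty := ⟨0, by rw [hV']; simp⟩
  have hφc : Continuous fun g : H => Metric.infDist (‖chi π g‖ ^ 2) (V' : Set ℝ) :=
    (Metric.continuous_infDist_pt _).comp ((cont_chi hπ).norm.pow 2)
  have h4 := h _ hφc fun g h => by rw [chi_cls]
  have h5 : L (fun p => Metric.infDist (‖chi π (y p)‖ ^ 2) (V' : Set ℝ)) = 0 := by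
    have hle : ∀ p, Metric.infDist (‖chi π (y p)‖ ^ 2) (V' : Set ℝ) ≤ |D p| := by
      intro p
      have h6 : ‖d p‖ ^ 2 ∈ (V' : Set ℝ) := by
        rw [hV', Finset.coe_insert]
        exact Or.inr (by
          rw [Finset.mem_coe, Finset.mem_image]
          exact ⟨d p, hV p, rfl⟩)
      have h7 := Metric.infDist_le_dist_of_mem (x := ‖chi π (y p)‖ ^ 2) h6
      rw [Real.dist_eq] at h7
      refine h7.trans (le_of_eq ?_)
      rw [hD]
      simp only
      rw [hYn, hcπ]
    have hb : Bd fun p => Metric.infDist (‖chi π (y p)‖ ^ 2) (V' : Set ℝ) := by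
      obtain ⟨B, hB⟩ := hDb
      exact ⟨B, fun p => by
        rw [abs_of_nonneg Metric.infDist_nonneg]
        exact (hle p).trans (hB p)⟩
    refine le_antisymm ?_ (lf_nonneg hL hb fun p => Metric.infDist_nonneg)
    rw [← h1]
    exact lf_mono hL hb hDb.abs hle
  rw [h5] at h4
  have h6 : ∀ g, ‖chi π g‖ ^ 2 ∈ (V' : Set ℝ) := by
    intro g
    have h7 : Metric.infDist (‖chi π g‖ ^ 2) (V' : Set ℝ) = 0 := by
      by_contra hcon
      have h8 := int_pos (μ := μ) hφc (fun g => Metric.infDist_nonneg) (g₀ := g) hcon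
      rw [← h4] at h8
      exact lt_irrefl _ h8
    exact (V'.finite_toSet.isClosed.mem_iff_infDist_zero hV'ne).2 h7
  have h7 : ∀ g, ‖chi π g‖ ^ 2 = ‖chi π 1‖ ^ 2 := fun g =>
    const_of_fin (f := fun g => ‖chi π g‖ ^ 2) ((cont_chi hπ).norm.pow 2)
      (V'.finite_toSet.subset (by rintro _ ⟨g, rfl⟩; exact h6 g)) g 1
  have h8 : ‖chi π 1‖ ^ 2 = 1 := by
    have h9 := int_sq (μ := μ) hπ hs hn
    simp only [h7] at h9
    simpa using h9
  have h9 := dim_one hn h8
  subst h9
  have h10 : ∀ g, ‖chi π g‖ = 1 := fun g =>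
    (pow_eq_one_iff_of_nonneg (norm_nonneg _) two_ne_zero).1 ((h7 g).trans h8)
  have hune : ∃ g, chi π g ≠ 1 := by
    by_contra hcon
    push Not at hcon
    exact hne (by rw [hcπ]; funext p; exact hcon _)
  refine no_roots hL (u := Y) (fun p => ?_) (fun l hl => ?_) (e := fun p => (m : ℂ) * conj (d p))
    (V := V.image fun z => (m : ℂ) * conj z) (fun p => Finset.mem_image_of_mem _ (hV p)) key.2
  · rw [hYn, hcπ]
    exact h10 _
  · have hcl : ∀ g h : H, chi π (h * g * h⁻¹) ^ l = chi π g ^ l := fun g h => by rw [chi_cls]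
    rcases hpow with hp | hp
    · have e1 : (fun p => Y p ^ l) = fun p => chi π (y p) ^ l := by
        funext p
        rw [hY]
        simp only
        rw [hp, one_mul, hcπ]
      rw [e1, Ec_law h (F := fun g => chi π g ^ l) ((cont_chi hπ).pow l) hcl]
      exact int_pow hπ hune hl
    · have e1 : (fun p => Y p ^ l) = fun p => w p ^ l * chi π (y p) ^ l := by
        funext p
        rw [hY]
        simp only
        rw [mul_pow, hcπ]
      rw [e1]
      exact hp l hl (fun g => chi π g ^ l) ((cont_chi hπ).pow l) hcl (int_pow hπ hune hl)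

end

section

variable {P : Type} {L : (P → ℝ) → ℝ}

/-- equal moments -/
theorem same_mom (hL : Lf L) {Y Z : P → ℂ} (hY : Bz Y) (hZ : Bz Z)
    (h1 : L (fun p => ‖Y p‖ ^ 2) = 1) (h2 : L (fun p => ‖Z p‖ ^ 2) = 1) {m : ℤ}
    (h3 : Ec L (fun p => Y p * Z p) = m) (hm : m ≠ 0) (k : ℕ) :
    L (fun p => (‖Y p‖ ^ 2) ^ k) = L (fun p => (‖Z p‖ ^ 2) ^ k) := by
  have hyb : Bd fun p => ‖Y p‖ ^ 2 := hY.norm.sq
  have hzb : Bd fun p => ‖Z p‖ ^ 2 := hZ.norm.sq
  have hpw : ∀ {g : P → ℝ}, Bd g → ∀ j : ℕ, Bd fun p => g p ^ j := by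
    rintro g ⟨B, hB⟩ j
    exact ⟨B ^ j, fun p => by
      rw [abs_pow]
      exact pow_le_pow_left₀ (abs_nonneg _) (hB p) j⟩
  have hWb : Bd fun p => ∑ i ∈ Finset.range k, (‖Y p‖ ^ 2) ^ i * (‖Z p‖ ^ 2) ^ (k - 1 - i) :=
    Bd.sum _ fun i _ => (hpw hyb i).mul (hpw hzb _)
  have h4 := cs_abs hL hY hZ h1 h2 h3 hm hWb
  have e : (fun p => (∑ i ∈ Finset.range k, (‖Y p‖ ^ 2) ^ i * (‖Z p‖ ^ 2) ^ (k - 1 - i)) *
      (‖Y p‖ ^ 2 - ‖Z p‖ ^ 2)) = fun p => (‖Y p‖ ^ 2) ^ k - (‖Z p‖ ^ 2) ^ k := by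
    funext p
    exact (Commute.all _ _).geom_sum₂_mul k
  rw [e, lf_sub hL (hpw hyb k) (hpw hzb k)] at h4
  linarith

end

end Pool.Agent.Q284.GR
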